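import Pool.Agent.Helper83.HLC.Defs

/-!
# HLC-3: the mean of `W ^ r`

`(1 + 2/p) ^ r ≤ 1 + c / p` with `c = 2 ^ (r + 1)` (for `0 ≤ x ≤ 1`: `(1 + x) ^ r ≤ 1 + 2 ^ r x`, by induction or convexity; here
`x = 2 / p ≤ 1`). So `W d ^ r ≤ ∏_{p ∣ d} (1 + c/p) = ∑_{T ⊆ primeFactors d} ∏_{p ∈ T} c/p` (`Finset.prod_one_add` /
`Finset.prod_add`). Exchange the sums: `T` ranges over the subsets of the primes `≤ D`, and the `d ≤ D` with `T ⊆ primeFactors d` are
the multiples of `∏ T`, at most `D / ∏ T`. Hence the sum is at most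
`D ∑_T ∏_{p ∈ T} c / p ^ 2 = D ∏_{p ≤ D} (1 + c / p ^ 2) ≤ D exp (c ∑_{p ≤ D} 1 / p ^ 2) ≤ D exp (2 c)`
(`∑_{n ≤ D} 1 / n ^ 2 ≤ 2`, e.g. `Finset.sum_Ioc_inv_sq_le` or telescoping).
-/

set_option autoImplicit false

namespace Pool.Agent.Helper83.HLC

open Finset

theorem one_add_pow_le (r : ℕ) {x : ℝ} (h0 : 0 ≤ x) (h1 : x ≤ 1) :
    (1 + x) ^ r ≤ 1 + (2 ^ r - 1) * x := by
  induction r with
  | zero => simp
  | succ r ih =>
    have h2 : (1 : ℝ) ≤ 2 ^ r := one_le_pow₀ (by norm_num)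
    have h3 : x * x ≤ x := by nlinarith
    calc (1 + x) ^ (r + 1) = (1 + x) ^ r * (1 + x) := pow_succ _ _
      _ ≤ (1 + (2 ^ r - 1) * x) * (1 + x) := by gcongr
      _ = 1 + (2 ^ r - 1) * x + x + (2 ^ r - 1) * (x * x) := by ring
      _ ≤ 1 + (2 ^ r - 1) * x + x + (2 ^ r - 1) * x := by
          have : (2 ^ r - 1) * (x * x) ≤ (2 ^ r - 1) * x :=
            mul_le_mul_of_nonneg_left h3 (by linarith)
          linarith
      _ = 1 + (2 ^ (r + 1) - 1) * x := by ring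

theorem W_pow_le (r d : ℕ) :
    W d ^ r ≤ ∏ p ∈ d.primeFactors, (1 + (2 : ℝ) ^ (r + 1) / (p : ℝ)) := by
  unfold W
  rw [← Finset.prod_pow]
  apply Finset.prod_le_prod
  · intro p _
    positivity
  · intro p hp
    have hp2 : (2 : ℝ) ≤ p := by exact_mod_cast (Nat.prime_of_mem_primeFactors hp).two_le
    have hp0 : (0 : ℝ) < p := by linarith
    have h1 : (2 : ℝ) / p ≤ 1 := by rw [div_le_one hp0]; exact hp2
    have h0 : (0 : ℝ) ≤ 2 / p := by positivity
    calc (1 + 2 / (p : ℝ)) ^ r ≤ 1 + (2 ^ r - 1) * (2 / p) := one_add_pow_le r h0 h1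
      _ ≤ 1 + 2 ^ r * (2 / p) := by nlinarith
      _ = 1 + (2 : ℝ) ^ (r + 1) / (p : ℝ) := by rw [pow_succ]; ring

theorem card_mult_le (D : ℕ) (T : Finset ℕ) (hT : ∀ p ∈ T, p.Prime) :
    (((Icc 1 D).filter (fun d => T ⊆ d.primeFactors)).card : ℝ) ≤ D / (∏ p ∈ T, (p : ℝ)) := by
  have hpos : 0 < ∏ p ∈ T, p := Finset.prod_pos fun p hp => (hT p hp).pos
  have h1 : ((Icc 1 D).filter (fun d => T ⊆ d.primeFactors)) ⊆
      ((Icc 1 D).filter (fun d => (∏ p ∈ T, p) ∣ d)) := by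
    intro d hd
    simp only [mem_filter] at hd ⊢
    refine ⟨hd.1, ?_⟩
    apply Finset.prod_primes_dvd
    · intro p hp
      exact (hT p hp).prime
    · intro p hp
      exact Nat.dvd_of_mem_primeFactors (hd.2 hp)
  have h2 : ((Icc 1 D).filter (fun d => (∏ p ∈ T, p) ∣ d)).card ≤ D / (∏ p ∈ T, p) := by
    have h3 : ((Icc 1 D).filter (fun d => (∏ p ∈ T, p) ∣ d)) ⊆
        (Icc 1 (D / (∏ p ∈ T, p))).image (fun j => (∏ p ∈ T, p) * j) := by
      intro d hd
      simp only [mem_filter, mem_Icc, mem_image] at hd ⊢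
      obtain ⟨⟨hd1, hd2⟩, j, rfl⟩ := hd
      refine ⟨j, ⟨?_, ?_⟩, rfl⟩
      · exact Nat.pos_of_ne_zero (by rintro rfl; simp at hd1)
      · exact (Nat.le_div_iff_mul_le hpos).2 (by rw [mul_comm]; exact hd2)
    calc _ ≤ _ := card_le_card h3
      _ ≤ (Icc 1 (D / (∏ p ∈ T, p))).card := card_image_le
      _ = D / (∏ p ∈ T, p) := by simp
  calc (((Icc 1 D).filter (fun d => T ⊆ d.primeFactors)).card : ℝ)
      ≤ ((D / (∏ p ∈ T, p) : ℕ) : ℝ) := by exact_mod_cast (card_le_card h1).trans h2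
    _ ≤ (D : ℝ) / ((∏ p ∈ T, p : ℕ) : ℝ) := Nat.cast_div_le
    _ = D / (∏ p ∈ T, (p : ℝ)) := by push_cast; rfl

theorem sum_inv_sq_le (D : ℕ) : ∑ n ∈ Icc 1 D, (1 : ℝ) / (n : ℝ) ^ 2 ≤ 2 - 1 / (D : ℝ) := by
  induction D with
  | zero => norm_num
  | succ D ih =>
    rw [Finset.sum_Icc_succ_top (by omega)]
    rcases Nat.eq_zero_or_pos D with h | h
    · subst h
      norm_num
    · have hD : (0 : ℝ) < (D : ℝ) := by exact_mod_cast h
      have h1 : (1 : ℝ) / ((D : ℝ) + 1) ^ 2 ≤ 1 / (D : ℝ) - 1 / ((D : ℝ) + 1) := by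
        rw [div_sub_div _ _ hD.ne' (by positivity), div_le_div_iff₀ (by positivity) (by positivity)]
        nlinarith
      push_cast
      linarith

theorem sum_W_pow (r : ℕ) : ∃ C : ℝ, 0 < C ∧ ∀ D : ℕ, ∑ d ∈ Icc 1 D, W d ^ r ≤ C * D := by
  refine ⟨Real.exp (2 ^ (r + 1) * 2), Real.exp_pos _, fun D => ?_⟩
  set c : ℝ := 2 ^ (r + 1) with hc
  have hc0 : 0 ≤ c := by positivity
  set P : Finset ℕ := (Icc 1 D).filter Nat.Prime with hP
  have hsub : ∀ d ∈ Icc 1 D, d.primeFactors ⊆ P := by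
    intro d hd p hp
    simp only [mem_Icc] at hd
    simp only [hP, mem_filter, mem_Icc]
    have hpp := Nat.prime_of_mem_primeFactors hp
    exact ⟨⟨hpp.one_lt.le, (Nat.le_of_mem_primeFactors hp).trans hd.2⟩, hpp⟩
  have h1 : ∑ d ∈ Icc 1 D, W d ^ r ≤
      ∑ d ∈ Icc 1 D, ∑ T ∈ P.powerset, if T ⊆ d.primeFactors then ∏ p ∈ T, c / (p : ℝ) else 0 := by
    apply Finset.sum_le_sum
    intro d hd
    refine (W_pow_le r d).trans (le_of_eq ?_)
    rw [Finset.prod_one_add, ← Finset.sum_filter]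
    apply Finset.sum_congr
    · ext T
      simp only [mem_powerset, mem_filter]
      constructor
      · intro h
        exact ⟨h.trans (hsub d hd), h⟩
      · intro h
        exact h.2
    · intro _ _
      rfl
  refine h1.trans ?_
  rw [Finset.sum_comm]
  have h2 : ∀ T ∈ P.powerset,
      (∑ d ∈ Icc 1 D, if T ⊆ d.primeFactors then ∏ p ∈ T, c / (p : ℝ) else 0) ≤
        D * ∏ p ∈ T, c / (p : ℝ) ^ 2 := by
    intro T hT
    have hTp : ∀ p ∈ T, p.Prime := by
      intro p hp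
      have := (mem_powerset.1 hT) hp
      simp only [hP, mem_filter] at this
      exact this.2
    rw [← Finset.sum_filter, Finset.sum_const, nsmul_eq_mul]
    have h3 := card_mult_le D T hTp
    have h4 : 0 ≤ ∏ p ∈ T, c / (p : ℝ) := Finset.prod_nonneg fun p _ => by positivity
    calc _ ≤ (D / (∏ p ∈ T, (p : ℝ))) * ∏ p ∈ T, c / (p : ℝ) :=
          mul_le_mul_of_nonneg_right h3 h4
      _ = D * ∏ p ∈ T, c / (p : ℝ) ^ 2 := by
          rw [div_mul_eq_mul_div, mul_div_assoc, ← Finset.prod_div_distrib]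
          congr 1
          apply Finset.prod_congr rfl
          intro p _
          rw [div_div, sq]
  refine (Finset.sum_le_sum h2).trans ?_
  rw [← Finset.mul_sum, ← Finset.prod_one_add, mul_comm]
  apply mul_le_mul_of_nonneg_right _ (Nat.cast_nonneg D)
  calc ∏ p ∈ P, (1 + c / (p : ℝ) ^ 2) ≤ ∏ p ∈ P, Real.exp (c / (p : ℝ) ^ 2) := by
        apply Finset.prod_le_prod
        · intro p _
          positivity
        · intro p _
          rw [add_comm]
          exact Real.add_one_le_exp _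
    _ = Real.exp (∑ p ∈ P, c / (p : ℝ) ^ 2) := (Real.exp_sum _ _).symm
    _ ≤ Real.exp (c * 2) := by
        apply Real.exp_le_exp.2
        calc ∑ p ∈ P, c / (p : ℝ) ^ 2 ≤ ∑ p ∈ Icc 1 D, c / (p : ℝ) ^ 2 :=
              Finset.sum_le_sum_of_subset_of_nonneg (Finset.filter_subset _ _)
                (fun p _ _ => by positivity)
          _ = c * ∑ p ∈ Icc 1 D, (1 : ℝ) / (p : ℝ) ^ 2 := by
              rw [Finset.mul_sum]
              apply Finset.sum_congr rfl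
              intro p _
              ring
          _ ≤ c * 2 := by
              apply mul_le_mul_of_nonneg_left _ hc0
              have := sum_inv_sq_le D
              have h5 : (0 : ℝ) ≤ 1 / (D : ℝ) := by positivity
              linarith

end Pool.Agent.Helper83.HLC
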