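import Pool.Agent.Helper83.HLC.Weighted
import Pool.Agent.Helper83.HLC.WSum

/-!
# HLC-4: the correlations `RR`

* `sum_GG`: `GG a n = ∏ i ∈ univ.image a, Λ (n + i)` (`a` injective, `Finset.prod_image`), `sum_tuples k`; the product over
  `offDiag` is a constant depending on `a`.
* `RR_le`: `GG a (n + t) ≤ (log (3 X)) ^ k ≤ (3 log X) ^ k` for `n, t ≤ X`, `a i ≤ X` (`vonMangoldt_le_log`), `sum_GG`.
* `RR_sq`: for `t` with `a i + t ≠ a j` for all `i, j` (in particular `t ≠ 0` if `k ≠ 0`) the set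
  `s = univ.image a ∪ univ.image (fun i => a i + t)` has `2 k` elements, `GG a n * GG a (n + t) = ∏ i ∈ s, Λ (n + i)`,
  so `RR a X t ≤ C X ∏_{x ∈ s.offDiag} W (dist x) ^ (2k)` (`sum_tuples (2 k)`; `s ⊆ [0, 2X]`: apply it with `2 X` instead of `X`).
  The pairs inside one of the two images give constants (`dist (a i + t) (a j + t) = dist (a i) (a j)`); the cross pairs give
  `∏_{i,j} W (dist (a i) (a j + t)) ^ (4 k)`. So `RR a X t ≤ C' X ∏_{i,j} W (dist (a i) (a j + t)) ^ (4k)`.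
  Square: `∏_{i,j} y_{ij} ≤ ∑_{i,j} y_{ij} ^ (k^2)` for `y_{ij} = W (..) ^ (8k) ≥ 0` and `k ≥ 1` (the product is at most `(max y) ^ (k^2)`);
  for fixed `i, j` each value `d = dist (a i) (a j + t) ≥ 1` is attained by at most two `t`, and `d ≤ T + A`, `A = max a`, so the sum over
  `t ≤ T` is at most `2 ∑_{d ≤ T + A} W d ^ (8 k^3) ≤ 2 C'' (T + A) ≤ 2 C'' (1 + A) T` (`sum_W_pow`, `T ≥ 1`).
  For `k = 0`: `RR a X t = X`.
-/

set_option autoImplicit false

namespace Pool.Agent.Helper83.HLC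

open Finset

private theorem one_le_prod {ι : Type*} (S : Finset ι) (f : ι → ℝ) (hf : ∀ x, 1 ≤ f x) :
    1 ≤ ∏ x ∈ S, f x := by
  calc (1 : ℝ) = ∏ _x ∈ S, (1 : ℝ) := by simp
    _ ≤ _ := Finset.prod_le_prod (fun _ _ => zero_le_one) fun x _ => hf x

private theorem prod_union_le {f : ℕ × ℕ → ℝ} (hf : ∀ x, 1 ≤ f x) (S T : Finset (ℕ × ℕ)) :
    ∏ x ∈ S ∪ T, f x ≤ (∏ x ∈ S, f x) * ∏ x ∈ T, f x := by
  rw [← Finset.prod_union_inter]
  exact le_mul_of_one_le_right (Finset.prod_nonneg fun x _ => zero_le_one.trans (hf x))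
    (one_le_prod _ _ hf)

private theorem prod_le_one_add {ι : Type*} (S : Finset ι) (y : ι → ℝ) (hy : ∀ x, 0 ≤ y x) :
    ∏ x ∈ S, y x ≤ 1 + ∑ x ∈ S, y x ^ S.card := by
  rcases S.eq_empty_or_nonempty with rfl | hS
  · simp
  · obtain ⟨m, hm, hmax⟩ := S.exists_max_image y hS
    calc ∏ x ∈ S, y x ≤ ∏ _x ∈ S, y m := Finset.prod_le_prod (fun x _ => hy x) hmax
      _ = y m ^ S.card := by rw [Finset.prod_const]
      _ ≤ ∑ x ∈ S, y x ^ S.card :=
        Finset.single_le_sum (f := fun x => y x ^ S.card) (fun x _ => pow_nonneg (hy x) _) hm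
      _ ≤ _ := by linarith

private theorem GG_eq {k : ℕ} {a : Fin k → ℕ} (ha : Function.Injective a) (n : ℕ) :
    ∏ i ∈ univ.image a, ArithmeticFunction.vonMangoldt (n + i) = GG a n := by
  unfold GG
  rw [Finset.prod_image (fun i _ j _ h => ha h)]

private theorem a_le_sum {k : ℕ} (a : Fin k → ℕ) (i : Fin k) : a i ≤ ∑ i, a i :=
  Finset.single_le_sum (f := a) (fun _ _ => Nat.zero_le _) (Finset.mem_univ i)

theorem sum_GG {k : ℕ} (a : Fin k → ℕ) (ha : Function.Injective a) :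
    ∃ C : ℝ, 0 < C ∧ ∃ X0 : ℕ, ∀ X : ℕ, X0 ≤ X → ∑ n ∈ Icc 1 X, GG a n ≤ C * X := by
  obtain ⟨C, hC, h⟩ := sum_tuples k
  have hP1 : 1 ≤ ∏ x ∈ (univ.image a).offDiag, W (Nat.dist x.1 x.2) ^ k :=
    one_le_prod _ _ fun x => one_le_pow₀ (one_le_W _)
  refine ⟨C * ∏ x ∈ (univ.image a).offDiag, W (Nat.dist x.1 x.2) ^ k, by positivity, 2 + ∑ i, a i,
    fun X hX => ?_⟩
  have hcard : (univ.image a).card = k := by
    rw [Finset.card_image_of_injective _ ha, Finset.card_univ, Fintype.card_fin]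
  have hle : ∀ i ∈ univ.image a, i ≤ X := by
    intro x hx
    rw [Finset.mem_image] at hx
    obtain ⟨i, _, rfl⟩ := hx
    have := a_le_sum a i
    omega
  have h1 := h X (by omega) _ hcard hle
  rw [Finset.sum_congr rfl fun n _ => GG_eq ha n] at h1
  refine h1.trans (le_of_eq ?_)
  ring

theorem RR_le {k : ℕ} (a : Fin k → ℕ) (ha : Function.Injective a) :
    ∃ C : ℝ, 0 < C ∧ ∃ X0 : ℕ, ∀ X : ℕ, X0 ≤ X → ∀ t : ℕ, t ≤ X → RR a X t ≤ C * X * Real.log X ^ k := by
  obtain ⟨C, hC, X0, h⟩ := sum_GG a ha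
  refine ⟨C * 2 ^ k, by positivity, X0 + 3 + ∑ i, a i, fun X hX t ht => ?_⟩
  have hX3 : (3 : ℝ) ≤ X := by exact_mod_cast (by omega : 3 ≤ X)
  have hlog : 0 ≤ Real.log X := Real.log_nonneg (by linarith)
  have hG : ∀ n ∈ Icc 1 X, GG a (n + t) ≤ (2 * Real.log X) ^ k := by
    intro n hn
    rw [Finset.mem_Icc] at hn
    unfold GG
    calc ∏ i, ArithmeticFunction.vonMangoldt (n + t + a i) ≤ ∏ _i : Fin k, (2 * Real.log X) := by
          refine Finset.prod_le_prod (fun _ _ => ArithmeticFunction.vonMangoldt_nonneg) fun i _ => ?_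
          refine ArithmeticFunction.vonMangoldt_le_log.trans ?_
          have h1 : ((n + t + a i : ℕ) : ℝ) ≤ (X : ℝ) ^ 2 := by
            have h2 : n + t + a i ≤ 3 * X := by
              have := a_le_sum a i
              omega
            have h3 : ((n + t + a i : ℕ) : ℝ) ≤ 3 * X := by exact_mod_cast h2
            nlinarith
          have h4 : (0 : ℝ) < ((n + t + a i : ℕ) : ℝ) := by
            exact_mod_cast (by omega : 0 < n + t + a i)
          calc Real.log ((n + t + a i : ℕ) : ℝ) ≤ Real.log ((X : ℝ) ^ 2) := Real.log_le_log h4 h1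
            _ = 2 * Real.log X := by rw [Real.log_pow]; norm_num
      _ = _ := by rw [Finset.prod_const, Finset.card_univ, Fintype.card_fin]
  unfold RR
  calc ∑ n ∈ Icc 1 X, GG a n * GG a (n + t) ≤ ∑ n ∈ Icc 1 X, GG a n * (2 * Real.log X) ^ k :=
        Finset.sum_le_sum fun n hn => mul_le_mul_of_nonneg_left (hG n hn) (GG_nonneg _ _)
    _ = (∑ n ∈ Icc 1 X, GG a n) * (2 * Real.log X) ^ k := by rw [Finset.sum_mul]
    _ ≤ C * X * (2 * Real.log X) ^ k :=
        mul_le_mul_of_nonneg_right (h X (by omega)) (by positivity)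
    _ = _ := by rw [mul_pow]; ring

private theorem RR_bound {k : ℕ} (a : Fin k → ℕ) (ha : Function.Injective a) :
    ∃ C : ℝ, 0 < C ∧ ∃ X0 : ℕ, ∀ X : ℕ, X0 ≤ X → ∀ t : ℕ, t ≤ X → (∀ i j, a i + t ≠ a j) →
      RR a X t ≤ C * X * ∏ p : Fin k × Fin k, W (Nat.dist (a p.1) (a p.2 + t)) ^ (4 * k) := by
  obtain ⟨C, hC, h⟩ := sum_tuples (2 * k)
  have hf : ∀ x : ℕ × ℕ, 1 ≤ W (Nat.dist x.1 x.2) ^ (2 * k) := fun x => one_le_pow₀ (one_le_W _)
  have hP1 : 1 ≤ ∏ x ∈ (univ.image a).offDiag, W (Nat.dist x.1 x.2) ^ (2 * k) :=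
    one_le_prod _ _ hf
  set P : ℝ := ∏ x ∈ (univ.image a).offDiag, W (Nat.dist x.1 x.2) ^ (2 * k) with hP
  refine ⟨C * 2 * (P * P), by positivity, 2 + ∑ i, a i, fun X hX t ht hd => ?_⟩
  have hai : ∀ i, a i ≤ X := fun i => (a_le_sum a i).trans (by omega)
  have hinj : Function.Injective (fun i => a i + t) := fun i j h => ha (Nat.add_right_cancel h)
  have hdis : Disjoint (univ.image a) (univ.image (fun i => a i + t)) := by
    rw [Finset.disjoint_left]
    intro x hx hx'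
    rw [Finset.mem_image] at hx hx'
    obtain ⟨i, _, rfl⟩ := hx
    obtain ⟨j, _, h⟩ := hx'
    exact hd j i h
  have hcard : (univ.image a ∪ univ.image (fun i => a i + t)).card = 2 * k := by
    rw [Finset.card_union_of_disjoint hdis, Finset.card_image_of_injective _ ha,
      Finset.card_image_of_injective _ hinj, Finset.card_univ, Fintype.card_fin]
    ring
  have hle : ∀ i ∈ univ.image a ∪ univ.image (fun i => a i + t), i ≤ 2 * X := by
    intro x hx
    rcases Finset.mem_union.1 hx with hx | hx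
    · rw [Finset.mem_image] at hx
      obtain ⟨i, _, rfl⟩ := hx
      have := hai i
      omega
    · rw [Finset.mem_image] at hx
      obtain ⟨i, _, hi⟩ := hx
      have := hai i
      omega
  have hmain := h (2 * X) (by omega) _ hcard hle
  have hR : RR a X t ≤ ∑ n ∈ Icc 1 (2 * X),
      ∏ i ∈ univ.image a ∪ univ.image (fun i => a i + t), ArithmeticFunction.vonMangoldt (n + i) := by
    unfold RR
    have heq : ∀ n, GG a n * GG a (n + t) =
        ∏ i ∈ univ.image a ∪ univ.image (fun i => a i + t), ArithmeticFunction.vonMangoldt (n + i) := by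
      intro n
      rw [Finset.prod_union hdis, GG_eq ha, Finset.prod_image (fun i _ j _ h => hinj h)]
      unfold GG
      congr 1
      refine Finset.prod_congr rfl fun i _ => ?_
      rw [add_assoc, add_comm t]
    rw [Finset.sum_congr rfl fun n _ => heq n]
    exact Finset.sum_le_sum_of_subset_of_nonneg (Finset.Icc_subset_Icc_right (by omega))
      fun n _ _ => Finset.prod_nonneg fun i _ => ArithmeticFunction.vonMangoldt_nonneg
  have hBP : ∏ x ∈ (univ.image (fun i => a i + t)).offDiag, W (Nat.dist x.1 x.2) ^ (2 * k) = P := by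
    rw [hP]
    symm
    refine Finset.prod_bij (fun x _ => (x.1 + t, x.2 + t)) ?_ ?_ ?_ ?_
    · intro x hx
      rw [Finset.mem_offDiag, Finset.mem_image, Finset.mem_image] at hx
      obtain ⟨⟨i, _, hi⟩, ⟨j, _, hj⟩, hne⟩ := hx
      rw [Finset.mem_offDiag, Finset.mem_image, Finset.mem_image]
      refine ⟨⟨i, Finset.mem_univ _, ?_⟩, ⟨j, Finset.mem_univ _, ?_⟩, ?_⟩
      · show a i + t = x.1 + t
        rw [hi]
      · show a j + t = x.2 + t
        rw [hj]
      · show x.1 + t ≠ x.2 + t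
        omega
    · intro x _ y _ hxy
      rw [Prod.mk.injEq] at hxy
      exact Prod.ext (by omega) (by omega)
    · intro y hy
      rw [Finset.mem_offDiag, Finset.mem_image, Finset.mem_image] at hy
      obtain ⟨⟨i, _, hi⟩, ⟨j, _, hj⟩, hne⟩ := hy
      refine ⟨(a i, a j), ?_, Prod.ext hi hj⟩
      rw [Finset.mem_offDiag, Finset.mem_image, Finset.mem_image]
      refine ⟨⟨i, Finset.mem_univ _, rfl⟩, ⟨j, Finset.mem_univ _, rfl⟩, ?_⟩
      intro hij
      apply hne
      rw [← hi, ← hj]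
      show a i + t = a j + t
      have hij' : a i = a j := hij
      rw [hij']
    · intro x _
      show W (Nat.dist x.1 x.2) ^ (2 * k) = W (Nat.dist (x.1 + t) (x.2 + t)) ^ (2 * k)
      rw [Nat.dist_add_add_right]
  have hAB : ∏ x ∈ univ.image a ×ˢ univ.image (fun i => a i + t), W (Nat.dist x.1 x.2) ^ (2 * k) =
      ∏ p : Fin k × Fin k, W (Nat.dist (a p.1) (a p.2 + t)) ^ (2 * k) := by
    rw [Finset.prod_product, Fintype.prod_prod_type, Finset.prod_image (fun i _ j _ h => ha h)]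
    refine Finset.prod_congr rfl fun i _ => ?_
    rw [Finset.prod_image (fun i _ j _ h => hinj h)]
  have hBA : ∏ x ∈ univ.image (fun i => a i + t) ×ˢ univ.image a, W (Nat.dist x.1 x.2) ^ (2 * k) =
      ∏ p : Fin k × Fin k, W (Nat.dist (a p.1) (a p.2 + t)) ^ (2 * k) := by
    rw [Finset.prod_product, Fintype.prod_prod_type, Finset.prod_image (fun i _ j _ h => hinj h),
      Finset.prod_comm]
    rw [Finset.prod_image (fun i _ j _ h => ha h)]
    refine Finset.prod_congr rfl fun i _ => Finset.prod_congr rfl fun j _ => ?_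
    show W (Nat.dist (a j + t) (a i)) ^ (2 * k) = _
    rw [Nat.dist_comm]
  have hprod : ∏ x ∈ (univ.image a ∪ univ.image (fun i => a i + t)).offDiag,
      W (Nat.dist x.1 x.2) ^ (2 * k) ≤
      P * P * ∏ p : Fin k × Fin k, W (Nat.dist (a p.1) (a p.2 + t)) ^ (4 * k) := by
    rw [Finset.offDiag_union hdis]
    have hnn : ∀ S : Finset (ℕ × ℕ), 0 ≤ ∏ x ∈ S, W (Nat.dist x.1 x.2) ^ (2 * k) := fun S =>
      zero_le_one.trans (one_le_prod _ _ hf)
    refine (prod_union_le hf _ _).trans ?_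
    refine (mul_le_mul_of_nonneg_right (prod_union_le hf _ _) (hnn _)).trans ?_
    refine (mul_le_mul_of_nonneg_right (mul_le_mul_of_nonneg_right (prod_union_le hf _ _) (hnn _))
      (hnn _)).trans ?_
    rw [hBP, hAB, hBA, ← hP]
    refine le_of_eq ?_
    have h4 : ∏ p : Fin k × Fin k, W (Nat.dist (a p.1) (a p.2 + t)) ^ (4 * k) =
        (∏ p : Fin k × Fin k, W (Nat.dist (a p.1) (a p.2 + t)) ^ (2 * k)) *
        ∏ p : Fin k × Fin k, W (Nat.dist (a p.1) (a p.2 + t)) ^ (2 * k) := by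
      rw [← Finset.prod_mul_distrib]
      refine Finset.prod_congr rfl fun p _ => ?_
      rw [← pow_add]
      congr 1
      ring
    rw [h4]
    ring
  calc RR a X t ≤ _ := hR
    _ ≤ _ := hmain
    _ ≤ C * ((2 * X : ℕ) : ℝ) *
        (P * P * ∏ p : Fin k × Fin k, W (Nat.dist (a p.1) (a p.2 + t)) ^ (4 * k)) :=
      mul_le_mul_of_nonneg_left hprod (by positivity)
    _ = _ := by push_cast; ring

private theorem sum_dist {r : ℕ} {C : ℝ} (h : ∀ D : ℕ, ∑ d ∈ Icc 1 D, W d ^ r ≤ C * D)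
    (u v A T : ℕ) (hu : u ≤ A) (hv : v ≤ A) (F : Finset ℕ) (hF : F ⊆ Icc 1 T)
    (hne : ∀ t ∈ F, v + t ≠ u) :
    ∑ t ∈ F, W (Nat.dist u (v + t)) ^ r ≤ 2 * (C * ((T + A : ℕ) : ℝ)) := by
  have key : ∀ G : Finset ℕ, Set.InjOn (fun t => Nat.dist u (v + t)) G →
      (∀ t ∈ G, Nat.dist u (v + t) ∈ Icc 1 (T + A)) →
      ∑ t ∈ G, W (Nat.dist u (v + t)) ^ r ≤ C * ((T + A : ℕ) : ℝ) := by
    intro G hG hm
    have h1 : ∑ d ∈ G.image (fun t => Nat.dist u (v + t)), W d ^ r =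
        ∑ t ∈ G, W (Nat.dist u (v + t)) ^ r := Finset.sum_image hG
    rw [← h1]
    refine le_trans (Finset.sum_le_sum_of_subset_of_nonneg ?_ ?_) (h _)
    · intro d hd
      rw [Finset.mem_image] at hd
      obtain ⟨t, ht, rfl⟩ := hd
      exact hm t ht
    · intro d _ _
      exact pow_nonneg (zero_le_one.trans (one_le_W d)) _
  have hmem : ∀ t ∈ F, Nat.dist u (v + t) ∈ Icc 1 (T + A) := by
    intro t ht
    have h1 := Finset.mem_Icc.1 (hF ht)
    have h2 := hne t ht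
    rw [Finset.mem_Icc]
    unfold Nat.dist
    omega
  rw [← Finset.sum_filter_add_sum_filter_not F (fun t => u ≤ v + t)]
  have h1 := key (F.filter (fun t => u ≤ v + t)) (by
    intro x hx y hy hxy
    rw [Finset.mem_coe, Finset.mem_filter] at hx hy
    have hxy' : Nat.dist u (v + x) = Nat.dist u (v + y) := hxy
    unfold Nat.dist at hxy'
    omega) (fun t ht => hmem t (Finset.mem_filter.1 ht).1)
  have h2 := key (F.filter (fun t => ¬ u ≤ v + t)) (by
    intro x hx y hy hxy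
    rw [Finset.mem_coe, Finset.mem_filter] at hx hy
    have hxy' : Nat.dist u (v + x) = Nat.dist u (v + y) := hxy
    unfold Nat.dist at hxy'
    omega) (fun t ht => hmem t (Finset.mem_filter.1 ht).1)
  linarith

theorem RR_sq {k : ℕ} (a : Fin k → ℕ) (ha : Function.Injective a) :
    ∃ C : ℝ, 0 < C ∧ ∃ X0 : ℕ, ∀ X : ℕ, X0 ≤ X → ∀ T : ℕ, 1 ≤ T → T ≤ X →
      ∑ t ∈ (Icc 1 T).filter (fun t => ∀ i j, a i + t ≠ a j), RR a X t ^ 2 ≤ C * T * X ^ 2 := by
  obtain ⟨C, hC, X0, h⟩ := RR_bound a ha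
  obtain ⟨C2, hC2, h2⟩ := sum_W_pow (4 * k * 2 * (k * k))
  set A : ℕ := ∑ i, a i with hA
  refine ⟨C ^ 2 * (1 + (k * k : ℕ) * (2 * (C2 * (1 + A)))), by positivity, X0,
    fun X hX T hT hTX => ?_⟩
  set F := (Icc 1 T).filter (fun t => ∀ i j, a i + t ≠ a j) with hFdef
  have hFsub : F ⊆ Icc 1 T := Finset.filter_subset _ _
  have hFcard : (F.card : ℝ) ≤ T := by
    have h3 := Finset.card_le_card hFsub
    rw [Nat.card_Icc, Nat.add_sub_cancel] at h3
    exact_mod_cast h3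
  have hpt : ∀ t ∈ F, RR a X t ^ 2 ≤ C ^ 2 * (X : ℝ) ^ 2 *
      (1 + ∑ p : Fin k × Fin k, W (Nat.dist (a p.1) (a p.2 + t)) ^ (4 * k * 2 * (k * k))) := by
    intro t ht
    rw [hFdef, Finset.mem_filter, Finset.mem_Icc] at ht
    have h4 := h X hX t (by omega) ht.2
    have h5 : RR a X t ^ 2 ≤ (C * X * ∏ p : Fin k × Fin k,
        W (Nat.dist (a p.1) (a p.2 + t)) ^ (4 * k)) ^ 2 :=
      pow_le_pow_left₀ (RR_nonneg a X t) h4 2
    refine h5.trans ?_
    rw [mul_pow, mul_pow, ← Finset.prod_pow]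
    refine mul_le_mul_of_nonneg_left ?_ (by positivity)
    refine (prod_le_one_add Finset.univ
      (fun p : Fin k × Fin k => (W (Nat.dist (a p.1) (a p.2 + t)) ^ (4 * k)) ^ 2)
      (fun p => sq_nonneg _)).trans (le_of_eq ?_)
    congr 1
    refine Finset.sum_congr rfl fun p _ => ?_
    rw [Finset.card_univ, Fintype.card_prod, Fintype.card_fin, ← pow_mul, ← pow_mul]
    congr 1
    ring
  have hsum : ∑ t ∈ F, ∑ p : Fin k × Fin k,
      W (Nat.dist (a p.1) (a p.2 + t)) ^ (4 * k * 2 * (k * k)) ≤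
      (k * k : ℕ) * (2 * (C2 * ((T + A : ℕ) : ℝ))) := by
    rw [Finset.sum_comm]
    refine (Finset.sum_le_sum fun p _ => sum_dist h2 (a p.1) (a p.2) A T (a_le_sum a _)
      (a_le_sum a _) F hFsub (fun t ht => ?_)).trans (le_of_eq ?_)
    · rw [hFdef, Finset.mem_filter] at ht
      exact ht.2 _ _
    · rw [Finset.sum_const, Finset.card_univ, Fintype.card_prod, Fintype.card_fin, nsmul_eq_mul]
  have hTA : ((T + A : ℕ) : ℝ) ≤ (1 + A) * T := by
    have hT' : (1 : ℝ) ≤ T := by exact_mod_cast hT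
    have hA' : (0 : ℝ) ≤ A := Nat.cast_nonneg _
    push_cast
    nlinarith
  calc ∑ t ∈ F, RR a X t ^ 2 ≤ ∑ t ∈ F, C ^ 2 * (X : ℝ) ^ 2 *
      (1 + ∑ p : Fin k × Fin k, W (Nat.dist (a p.1) (a p.2 + t)) ^ (4 * k * 2 * (k * k))) :=
        Finset.sum_le_sum hpt
    _ = C ^ 2 * (X : ℝ) ^ 2 * (F.card + ∑ t ∈ F, ∑ p : Fin k × Fin k,
        W (Nat.dist (a p.1) (a p.2 + t)) ^ (4 * k * 2 * (k * k))) := by
        rw [← Finset.mul_sum, Finset.sum_add_distrib, Finset.sum_const, nsmul_eq_mul, mul_one]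
    _ ≤ C ^ 2 * (X : ℝ) ^ 2 * (T + (k * k : ℕ) * (2 * (C2 * ((1 + A) * T)))) := by
        refine mul_le_mul_of_nonneg_left (add_le_add hFcard (hsum.trans ?_)) (by positivity)
        refine mul_le_mul_of_nonneg_left (mul_le_mul_of_nonneg_left
          (mul_le_mul_of_nonneg_left hTA hC2.le) (by norm_num)) (Nat.cast_nonneg _)
    _ = _ := by ring

end Pool.Agent.Helper83.HLC
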