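import Pool.Agent.Helper83.HLC.Main

/-!
# HLC-11: the theorem for the Liouville function and for centred bounded functions of `Ω`
-/

set_option autoImplicit false

namespace Pool.Agent.Helper83.HLC

open Finset

/-- `f` is the Liouville function, or `f n = b (Ω n) - m` with `|b| ≤ 1` and `m` the mean of `b (Ω n)` over `n ≤ X`. -/
def Centred (X : ℕ) (f : ℕ → ℝ) : Prop :=
  (∀ n, f n = (-1) ^ ArithmeticFunction.cardFactors n) ∨
    ∃ b : ℕ → ℝ, (∀ m, |b m| ≤ 1) ∧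
      ∀ n, f n = b (ArithmeticFunction.cardFactors n) -
        (∑ m ∈ Icc 1 X, b (ArithmeticFunction.cardFactors m)) / X

theorem mx_lam (hL : MRP.LAWx) (δ : ℝ) (hδ : 0 < δ) : ∃ X0 : ℕ, ∀ X : ℕ, X0 ≤ X →
    |MRP.mx X (fun m => (-1) ^ m)| ≤ δ := by
  obtain ⟨x0, hx0⟩ := hL (2 * δ) (by positivity) 1 le_rfl
  refine ⟨x0, fun X hX => ?_⟩
  have h1 := (hx0 X hX (fun m => (-1) ^ m) (fun m => by simp)).1
  have h2 : MRP.mx X (MRP.up 1 (fun m => (-1 : ℝ) ^ m)) = -MRP.mx X (fun m => (-1) ^ m) := by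
    unfold MRP.mx MRP.up
    rw [← neg_div, ← Finset.sum_neg_distrib]
    congr 1
    refine Finset.sum_congr rfl fun n _ => ?_
    simp only
    rw [pow_succ]
    ring
  rw [h2] at h1
  have h3 : |(-MRP.mx X (fun m => (-1 : ℝ) ^ m) - MRP.mx X (fun m => (-1) ^ m))| =
      2 * |MRP.mx X (fun m => (-1 : ℝ) ^ m)| := by
    rw [show (-MRP.mx X (fun m => (-1 : ℝ) ^ m) - MRP.mx X (fun m => (-1) ^ m)) =
      -(2 * MRP.mx X (fun m => (-1 : ℝ) ^ m)) by ring, abs_neg, abs_mul, abs_two]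
  rw [h3] at h1
  linarith

theorem final (hE : MRP.EXPx) (hL : MRP.LAWx) (k : ℕ) (a : Fin k → ℕ) (ha : Function.Injective a)
    (ε : ℝ) (hε : 0 < ε) :
    ∃ K : ℝ, ∃ X₀ : ℕ, ∀ X H y : ℕ, X₀ ≤ X → K * Real.log X ^ k ≤ H → H ≤ X → y ≤ X →
      ∀ f : ℕ → ℝ, Centred X f → ∀ g : ℕ → ℂ, (∀ n, ‖g n‖ ≤ 1) →
        ∑ h ∈ Ioc y (y + H), ‖∑ n ∈ Icc 1 X,
          (∏ i, (ArithmeticFunction.vonMangoldt (n + a i) : ℂ)) * g n * (f (n + h) : ℂ)‖ ≤ ε * H * X := by
  obtain ⟨K, hK, X1, h1⟩ := avg hE hL a ha (ε / 2) (by positivity)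
  obtain ⟨C1, hC1, X2, h2⟩ := sum_GG a ha
  obtain ⟨X3, h3⟩ := mx_lam hL (ε / (2 * C1)) (by positivity)
  refine ⟨2 * K, max (max X1 X2) (max X3 3), fun X H y hX hH hHX hy f hf g hg => ?_⟩
  have hX1 : X1 ≤ X := (le_max_left _ _).trans ((le_max_left _ _).trans hX)
  have hX2 : X2 ≤ X := (le_max_right _ _).trans ((le_max_left _ _).trans hX)
  have hX3 : X3 ≤ X := (le_max_left _ _).trans ((le_max_right _ _).trans hX)
  have hX0 : 3 ≤ X := (le_max_right _ _).trans ((le_max_right _ _).trans hX)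
  have hXR : (3 : ℝ) ≤ X := by exact_mod_cast hX0
  have hLg : 1 ≤ Real.log X := by
    rw [Real.le_log_iff_exp_le (by linarith)]
    exact (Real.exp_one_lt_d9.le.trans (by norm_num)).trans hXR
  have hLk : 1 ≤ Real.log X ^ k := one_le_pow₀ hLg
  have hKH : K * (1 + Real.log X ^ k) ≤ H := by
    refine le_trans ?_ hH
    nlinarith
  set u : ℕ → ℂ := fun n => (∏ i, (ArithmeticFunction.vonMangoldt (n + a i) : ℂ)) * g n with hu
  have hule : ∀ n, ‖u n‖ ≤ GG a n := by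
    intro n
    rw [hu]
    simp only
    rw [norm_mul, norm_prod]
    have e1 : ∏ i, ‖((ArithmeticFunction.vonMangoldt (n + a i) : ℝ) : ℂ)‖ = GG a n := by
      unfold GG
      refine Finset.prod_congr rfl fun i _ => ?_
      rw [Complex.norm_real, Real.norm_eq_abs, abs_of_nonneg ArithmeticFunction.vonMangoldt_nonneg]
    rw [e1]
    calc GG a n * ‖g n‖ ≤ GG a n * 1 := mul_le_mul_of_nonneg_left (hg n) (GG_nonneg _ _)
      _ = GG a n := mul_one _
  have hshift : ∀ F : ℕ → ℝ, ∑ h ∈ Ioc y (y + H), F h = ∑ h ∈ Icc 1 H, F (y + h) := by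
    intro F
    rw [show Ioc y (y + H) = (Icc 1 H).image (fun h => y + h) by
      ext x
      rw [Finset.mem_image, Finset.mem_Ioc]
      constructor
      · intro hx
        exact ⟨x - y, by rw [Finset.mem_Icc]; omega, by omega⟩
      · rintro ⟨h, hh, rfl⟩
        rw [Finset.mem_Icc] at hh
        omega]
    rw [Finset.sum_image fun x _ z _ h => by simpa using h]
  rw [hshift]
  have hmain : ∀ b : ℕ → ℝ, (∀ m, |b m| ≤ 1) →
      ∑ h ∈ Icc 1 H, ‖∑ n ∈ Icc 1 X, u n * fy X b y (n + h)‖ ≤ ε / 2 * H * X := fun b hb =>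
    h1 X hX1 H hKH hHX y hy b hb u hule
  have hH0 : (0 : ℝ) ≤ H := Nat.cast_nonneg _
  have hX00 : (0 : ℝ) ≤ X := Nat.cast_nonneg _
  rcases hf with hf | ⟨b, hb, hf⟩
  · have e1 : ∀ h ∈ Icc 1 H, ‖∑ n ∈ Icc 1 X, u n * (f (n + (y + h)) : ℂ)‖ ≤
        ‖∑ n ∈ Icc 1 X, u n * fy X (fun m => (-1) ^ m) y (n + h)‖ + ε / 2 * X := by
      intro h _
      have e2 : ∑ n ∈ Icc 1 X, u n * (f (n + (y + h)) : ℂ) =
          ∑ n ∈ Icc 1 X, u n * fy X (fun m => (-1) ^ m) y (n + h) +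
            ∑ n ∈ Icc 1 X, u n * ((MRP.mx X (fun m => (-1) ^ m) : ℝ) : ℂ) := by
        rw [← Finset.sum_add_distrib]
        refine Finset.sum_congr rfl fun n _ => ?_
        rw [hf, ← mul_add]
        congr 1
        unfold fy fb MRP.Om
        have e3 : n + (y + h) = n + h + y := by omega
        rw [e3]
        push_cast
        ring
      rw [e2]
      refine (norm_add_le _ _).trans (add_le_add le_rfl ?_)
      refine (norm_sum_le _ _).trans ?_
      calc ∑ n ∈ Icc 1 X, ‖u n * ((MRP.mx X (fun m => (-1) ^ m) : ℝ) : ℂ)‖ ≤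
            ∑ n ∈ Icc 1 X, GG a n * (ε / (2 * C1)) := by
            refine Finset.sum_le_sum fun n _ => ?_
            rw [norm_mul, Complex.norm_real, Real.norm_eq_abs]
            exact mul_le_mul (hule n) (h3 X hX3) (abs_nonneg _) (GG_nonneg _ _)
        _ = (∑ n ∈ Icc 1 X, GG a n) * (ε / (2 * C1)) := by rw [Finset.sum_mul]
        _ ≤ (C1 * X) * (ε / (2 * C1)) := mul_le_mul_of_nonneg_right (h2 X hX2) (by positivity)
        _ = ε / 2 * X := by field_simp
    refine (Finset.sum_le_sum e1).trans ?_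
    rw [Finset.sum_add_distrib, Finset.sum_const, Nat.card_Icc, nsmul_eq_mul]
    have e4 := hmain (fun m => (-1) ^ m) (fun m => by simp)
    push_cast [Nat.add_sub_cancel]
    linarith
  · have e1 : ∀ h ∈ Icc 1 H, ‖∑ n ∈ Icc 1 X, u n * (f (n + (y + h)) : ℂ)‖ =
        ‖∑ n ∈ Icc 1 X, u n * fy X b y (n + h)‖ := by
      intro h _
      congr 1
      refine Finset.sum_congr rfl fun n _ => ?_
      rw [hf]
      congr 1
      unfold fy fb MRP.Om MRP.mx
      have e3 : n + (y + h) = n + h + y := by omega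
      rw [e3]
    rw [Finset.sum_congr rfl e1]
    refine (hmain b hb).trans ?_
    have : ε / 2 * H * X ≤ ε * H * X := by
      have : 0 ≤ ε / 2 * H * X := by positivity
      linarith
    exact this

end Pool.Agent.Helper83.HLC
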