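import Mathlib

/-!
# Project HLC (MP_e6fa8b_nt): averaged Hardy-Littlewood-Chowla in the critical range: definitions
-/

set_option autoImplicit false

namespace Pool.Agent.Helper83.HLC

open Finset

/-- The product of `1 + 2 / p` over the prime divisors. -/
noncomputable def W (d : ℕ) : ℝ := ∏ p ∈ d.primeFactors, (1 + 2 / (p : ℝ))

/-- The product of the von Mangoldt functions of the shifts. -/
noncomputable def GG {k : ℕ} (a : Fin k → ℕ) (n : ℕ) : ℝ := ∏ i, ArithmeticFunction.vonMangoldt (n + a i)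

/-- The correlations of `GG` with itself. -/
noncomputable def RR {k : ℕ} (a : Fin k → ℕ) (X t : ℕ) : ℝ := ∑ n ∈ Icc 1 X, GG a n * GG a (n + t)

theorem one_le_W (d : ℕ) : 1 ≤ W d := by
  unfold W
  calc (1 : ℝ) = ∏ _p ∈ d.primeFactors, (1 : ℝ) := by simp
    _ ≤ _ := Finset.prod_le_prod (fun _ _ => zero_le_one) fun p _ => by
      have : 0 ≤ 2 / (p : ℝ) := by positivity
      linarith

theorem GG_nonneg {k : ℕ} (a : Fin k → ℕ) (n : ℕ) : 0 ≤ GG a n :=
  Finset.prod_nonneg fun _ _ => ArithmeticFunction.vonMangoldt_nonneg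

theorem RR_nonneg {k : ℕ} (a : Fin k → ℕ) (X t : ℕ) : 0 ≤ RR a X t :=
  Finset.sum_nonneg fun _ _ => mul_nonneg (GG_nonneg _ _) (GG_nonneg _ _)

end Pool.Agent.Helper83.HLC
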