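import Pool.Agent.Helper6.MR.Iface
import Pool.Agent.Helper28.ER.Prim

/-!
# HLC-5: Parseval for the autocorrelations

`rho c H t = ∑_{h, h' ∈ [1, H], h - h' = t} c_h conj c_{h'}`, `t ∈ [-H, H]`.
With `N = 2 H + 1` and `f k = ∑_{h} c_h ψ (k h)`, `ψ = ZMod.stdAddChar` (so that `‖f k‖ ≤ F` by the hypothesis with `α = k / N`),
`|f k| ^ 2 = ∑_{t = -H}^{H} rho t ψ (k t) = ∑_{b : ZMod N} rho (valMinAbs b) ψ (k b)`, and `Pool.Agent.Helper6.ER.add_parseval` gives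
`∑_k |f k| ^ 4 = N ∑_t |rho t| ^ 2`, `∑_k |f k| ^ 2 = N ∑ |c_h| ^ 2`.
Hence `∑_t |rho t| ^ 2 ≤ F ^ 2 ∑ |c_h| ^ 2`.
-/

set_option autoImplicit false

namespace Pool.Agent.Helper83.HLC

open Finset ComplexConjugate

/-- The autocorrelation of `c` on `[1, H]`. -/
noncomputable def rho (c : ℕ → ℂ) (H : ℕ) (t : ℤ) : ℂ :=
  ∑ x ∈ (Icc 1 H ×ˢ Icc 1 H).filter (fun x => (x.1 : ℤ) - x.2 = t), c x.1 * conj (c x.2)

/-- a sum over `ZMod (2 H + 1)` of a function of the centred representative -/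
private theorem sum_centred (H : ℕ) (g : ℤ → ℂ) :
    ∑ b : ZMod (2 * H + 1), g b.valMinAbs = ∑ t ∈ Icc (-(H : ℤ)) H, g t := by
  refine Finset.sum_nbij' (fun b => b.valMinAbs) (fun t => (t : ZMod (2 * H + 1))) ?_ ?_ ?_ ?_ ?_
  · intro b _
    have h := ZMod.valMinAbs_mem_Ioc b
    rw [Set.mem_Ioc] at h
    push_cast at h
    rw [Finset.mem_Icc]
    constructor <;> omega
  · intro t _
    exact Finset.mem_univ _
  · intro b _
    exact ZMod.coe_valMinAbs b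
  · intro t ht
    rw [Finset.mem_Icc] at ht
    rw [ZMod.valMinAbs_spec]
    refine ⟨rfl, ?_⟩
    rw [Set.mem_Ioc]
    push_cast
    constructor <;> omega
  · intro b _
    rfl

/-- the same for real values -/
private theorem sum_centred_real (H : ℕ) (g : ℤ → ℝ) :
    ∑ b : ZMod (2 * H + 1), g b.valMinAbs = ∑ t ∈ Icc (-(H : ℤ)) H, g t := by
  have h := sum_centred H (fun t => (g t : ℂ))
  exact_mod_cast h

/-- the double sum by differences -/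
private theorem sum_rho_mul (c : ℕ → ℂ) (H : ℕ) (g : ℤ → ℂ) :
    ∑ t ∈ Icc (-(H : ℤ)) H, rho c H t * g t =
      ∑ x ∈ Icc 1 H ×ˢ Icc 1 H, c x.1 * conj (c x.2) * g ((x.1 : ℤ) - x.2) := by
  have hmaps : ∀ x ∈ Icc 1 H ×ˢ Icc 1 H, ((x.1 : ℤ) - x.2) ∈ Icc (-(H : ℤ)) H := by
    intro x hx
    rw [Finset.mem_product, Finset.mem_Icc, Finset.mem_Icc] at hx
    rw [Finset.mem_Icc]
    constructor <;> omega
  rw [← Finset.sum_fiberwise_of_maps_to hmaps]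
  refine Finset.sum_congr rfl fun t _ => ?_
  unfold rho
  rw [Finset.sum_mul]
  refine Finset.sum_congr rfl fun x hx => ?_
  rw [Finset.mem_filter] at hx
  rw [hx.2]

/-- the exponential sum at `k` -/
private noncomputable def ff (c : ℕ → ℂ) (H : ℕ) (k : ZMod (2 * H + 1)) : ℂ :=
  ∑ h ∈ Icc 1 H, c h * ZMod.stdAddChar (k * (h : ZMod (2 * H + 1)))

private theorem sum_sq_ff (c : ℕ → ℂ) (H : ℕ) :
    ∑ k : ZMod (2 * H + 1), ‖ff c H k‖ ^ 2 = (2 * H + 1 : ℕ) * ∑ h ∈ Icc 1 H, ‖c h‖ ^ 2 := by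
  classical
  have hinj : Set.InjOn (fun h : ℕ => (h : ZMod (2 * H + 1))) (Icc 1 H : Finset ℕ) := by
    intro a ha b hb hab
    rw [Finset.mem_coe, Finset.mem_Icc] at ha hb
    have h1 := (ZMod.natCast_eq_natCast_iff' a b (2 * H + 1)).1 hab
    rw [Nat.mod_eq_of_lt (by omega), Nat.mod_eq_of_lt (by omega)] at h1
    exact h1
  set y : ZMod (2 * H + 1) → ℂ := fun b => if b.val ∈ Icc 1 H then c b.val else 0 with hy
  have hyc : ∀ h ∈ Icc 1 H, y (h : ZMod (2 * H + 1)) = c h := by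
    intro h hh
    have hv : ((h : ZMod (2 * H + 1))).val = h := by
      rw [ZMod.val_natCast, Nat.mod_eq_of_lt]
      rw [Finset.mem_Icc] at hh
      omega
    simp only [hy, hv, if_pos hh]
  have hsup : ∀ b : ZMod (2 * H + 1), b ∉ (Icc 1 H).image (fun h : ℕ => (h : ZMod (2 * H + 1))) →
      y b = 0 := by
    intro b hb
    simp only [hy]
    rw [if_neg]
    intro hv
    exact hb (Finset.mem_image.2 ⟨b.val, hv, ZMod.natCast_zmod_val b⟩)
  have hsum : ∀ k : ZMod (2 * H + 1), ∑ b : ZMod (2 * H + 1), y b * ZMod.stdAddChar (k * b) =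
      ff c H k := by
    intro k
    rw [← Finset.sum_subset (Finset.subset_univ
      ((Icc 1 H).image (fun h : ℕ => (h : ZMod (2 * H + 1)))))
      (fun b _ hb => by rw [hsup b hb, zero_mul])]
    rw [Finset.sum_image hinj]
    unfold ff
    refine Finset.sum_congr rfl fun h hh => ?_
    rw [hyc h hh]
  have hsq : ∑ b : ZMod (2 * H + 1), ‖y b‖ ^ 2 = ∑ h ∈ Icc 1 H, ‖c h‖ ^ 2 := by
    rw [← Finset.sum_subset (Finset.subset_univ
      ((Icc 1 H).image (fun h : ℕ => (h : ZMod (2 * H + 1)))))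
      (fun b _ hb => by rw [hsup b hb]; simp)]
    rw [Finset.sum_image hinj]
    refine Finset.sum_congr rfl fun h hh => ?_
    rw [hyc h hh]
  have hp := Pool.Agent.Helper6.ER.add_parseval (2 * H + 1) y
  simp only [hsum] at hp
  rw [hp, hsq]

private theorem ff_le (c : ℕ → ℂ) (H : ℕ) (F : ℝ)
    (hF : ∀ α : ℝ, ‖∑ h ∈ Icc 1 H, c h * MRP.eC ((h : ℝ) * α)‖ ≤ F) (k : ZMod (2 * H + 1)) :
    ‖ff c H k‖ ≤ F := by
  have h1 := hF ((k.val : ℝ) / ((2 * H + 1 : ℕ) : ℝ))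
  have h2 : ff c H k =
      ∑ h ∈ Icc 1 H, c h * MRP.eC ((h : ℝ) * ((k.val : ℝ) / ((2 * H + 1 : ℕ) : ℝ))) := by
    unfold ff
    refine Finset.sum_congr rfl fun h _ => ?_
    congr 1
    have hk : k * (h : ZMod (2 * H + 1)) = (((k.val : ℤ) * (h : ℤ) : ℤ) : ZMod (2 * H + 1)) := by
      push_cast
      rw [ZMod.natCast_zmod_val]
    rw [hk, ZMod.stdAddChar_coe]
    unfold MRP.eC
    congr 1
    push_cast
    ring
  rw [h2]
  exact h1

theorem sum_rho_sq (c : ℕ → ℂ) (H : ℕ) (F : ℝ)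
    (hF : ∀ α : ℝ, ‖∑ h ∈ Icc 1 H, c h * MRP.eC ((h : ℝ) * α)‖ ≤ F) :
    ∑ t ∈ Icc (-(H : ℤ)) H, ‖rho c H t‖ ^ 2 ≤ F ^ 2 * ∑ h ∈ Icc 1 H, ‖c h‖ ^ 2 := by
  have hmain : ∀ k : ZMod (2 * H + 1),
      ∑ b : ZMod (2 * H + 1), rho c H b.valMinAbs * ZMod.stdAddChar (k * b) =
        ff c H k * conj (ff c H k) := by
    intro k
    have h1 : ∑ b : ZMod (2 * H + 1), rho c H b.valMinAbs * ZMod.stdAddChar (k * b) =
        ∑ b : ZMod (2 * H + 1), (fun t : ℤ => rho c H t *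
          ZMod.stdAddChar (k * ((t : ℤ) : ZMod (2 * H + 1)))) b.valMinAbs := by
      refine Finset.sum_congr rfl fun b _ => ?_
      simp only [ZMod.coe_valMinAbs]
    rw [h1, sum_centred H (fun t : ℤ => rho c H t *
          ZMod.stdAddChar (k * ((t : ℤ) : ZMod (2 * H + 1)))),
      sum_rho_mul c H (fun t : ℤ => ZMod.stdAddChar (k * ((t : ℤ) : ZMod (2 * H + 1))))]
    unfold ff
    rw [map_sum, Finset.sum_mul_sum, Finset.sum_product]
    refine Finset.sum_congr rfl fun a _ => Finset.sum_congr rfl fun b _ => ?_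
    rw [RingHom.map_mul, ← AddChar.map_neg_eq_conj]
    have h2 : k * ((((a : ℤ) - (b : ℤ) : ℤ)) : ZMod (2 * H + 1)) =
        k * (a : ZMod (2 * H + 1)) + -(k * (b : ZMod (2 * H + 1))) := by
      push_cast
      ring
    rw [h2, AddChar.map_add_eq_mul]
    ring
  have hp := Pool.Agent.Helper6.ER.add_parseval (2 * H + 1)
    (fun b : ZMod (2 * H + 1) => rho c H b.valMinAbs)
  simp only [hmain] at hp
  have hc := sum_centred_real H (fun t => ‖rho c H t‖ ^ 2)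
  rw [hc] at hp
  have hle : ∑ k : ZMod (2 * H + 1), ‖ff c H k * conj (ff c H k)‖ ^ 2 ≤
      F ^ 2 * ∑ k : ZMod (2 * H + 1), ‖ff c H k‖ ^ 2 := by
    rw [Finset.mul_sum]
    refine Finset.sum_le_sum fun k _ => ?_
    rw [norm_mul, RCLike.norm_conj]
    have h1 := ff_le c H F hF k
    have h0 := norm_nonneg (ff c H k)
    have h3 : ‖ff c H k‖ ^ 2 ≤ F ^ 2 := pow_le_pow_left₀ h0 h1 2
    calc (‖ff c H k‖ * ‖ff c H k‖) ^ 2 = ‖ff c H k‖ ^ 2 * ‖ff c H k‖ ^ 2 := by ring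
      _ ≤ F ^ 2 * ‖ff c H k‖ ^ 2 := mul_le_mul_of_nonneg_right h3 (by positivity)
  rw [hp, sum_sq_ff] at hle
  have hN : (0 : ℝ) < ((2 * H + 1 : ℕ) : ℝ) := by positivity
  have hle' : ((2 * H + 1 : ℕ) : ℝ) * ∑ t ∈ Icc (-(H : ℤ)) H, ‖rho c H t‖ ^ 2 ≤
      ((2 * H + 1 : ℕ) : ℝ) * (F ^ 2 * ∑ h ∈ Icc 1 H, ‖c h‖ ^ 2) := by
    calc _ ≤ F ^ 2 * (((2 * H + 1 : ℕ) : ℝ) * ∑ h ∈ Icc 1 H, ‖c h‖ ^ 2) := hle
      _ = _ := by ring
  exact le_of_mul_le_mul_left hle' hN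

end Pool.Agent.Helper83.HLC
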