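import Pool.Agent.Helper83.HLC.Smooth
import Pool.Agent.Helper83.HLC.U2

/-!
# HLC-9: the average over the shift (B)
-/

set_option autoImplicit false

namespace Pool.Agent.Helper83.HLC

open Finset ComplexConjugate

theorem norm_tr_le {k : ℕ} (a : Fin k → ℕ) (u : ℕ → ℂ) (hu : ∀ n, ‖u n‖ ≤ GG a n) (X n : ℕ) :
    ‖tr u X n‖ ≤ GG a n := by
  unfold tr
  split_ifs
  · exact hu n
  · rw [norm_zero]
    exact GG_nonneg _ _

/-- The correlation as a function of the difference. -/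
noncomputable def qq (u : ℕ → ℂ) (X : ℕ) (t : ℤ) : ℂ :=
  ∑ n ∈ Icc 1 X, tr u X (n + (-t).toNat) * conj (tr u X (n + t.toNat))

theorem tr_self (u : ℕ → ℂ) {X n : ℕ} (hn : n ∈ Icc 1 X) : tr u X n = u n := by
  rw [Finset.mem_Icc] at hn
  unfold tr
  rw [if_pos hn]

theorem corr_eq (u : ℕ → ℂ) (X s s' : ℕ) (hs : s ≤ X) (hs' : s' ≤ X) :
    ∑ m ∈ Icc 1 (2 * X), tr u X (m - s) * conj (tr u X (m - s')) = qq u X ((s : ℤ) - s') := by
  unfold qq
  rcases le_total s s' with h | h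
  · have h1 := sum_tr u (fun m x => tr u X (m - s) * conj x) (fun m => by rw [map_zero, mul_zero]) hs'
    rw [h1]
    refine Finset.sum_congr rfl fun n hn => ?_
    have e1 : ((s : ℤ) - s').toNat = 0 := by omega
    have e2 : (-((s : ℤ) - s')).toNat = s' - s := by omega
    have e3 : n + s' - s = n + (s' - s) := by omega
    rw [e1, e2, e3, add_zero, tr_self u hn]
  · have h1 := sum_tr u (fun m x => x * conj (tr u X (m - s'))) (fun m => by rw [zero_mul]) hs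
    rw [h1]
    refine Finset.sum_congr rfl fun n hn => ?_
    have e1 : (-((s : ℤ) - s')).toNat = 0 := by omega
    have e2 : ((s : ℤ) - s').toNat = s - s' := by omega
    have e3 : n + s - s' = n + (s - s') := by omega
    rw [e1, e2, e3, add_zero, tr_self u hn]

theorem norm_qq_le {k : ℕ} (a : Fin k → ℕ) (u : ℕ → ℂ) (hu : ∀ n, ‖u n‖ ≤ GG a n) (X : ℕ) (t : ℤ) :
    ‖qq u X t‖ ≤ RR a X t.natAbs := by
  unfold qq RR
  refine (norm_sum_le _ _).trans (Finset.sum_le_sum fun n _ => ?_)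
  rw [norm_mul, RCLike.norm_conj]
  rcases le_total 0 t with h | h
  · have e1 : (-t).toNat = 0 := by omega
    have e2 : t.toNat = t.natAbs := by omega
    rw [e1, e2, add_zero]
    exact mul_le_mul (norm_tr_le a u hu X _) (norm_tr_le a u hu X _) (norm_nonneg _) (GG_nonneg _ _)
  · have e1 : t.toNat = 0 := by omega
    have e2 : (-t).toNat = t.natAbs := by omega
    rw [e1, e2, add_zero, mul_comm]
    exact mul_le_mul (norm_tr_le a u hu X _) (norm_tr_le a u hu X _) (norm_nonneg _) (GG_nonneg _ _)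

/-- Cauchy-Schwarz over `r = n + h`. -/
theorem cs_step {k : ℕ} (a : Fin k → ℕ) (u : ℕ → ℂ) (hu : ∀ n, ‖u n‖ ≤ GG a n) (X H : ℕ) (hHX : H ≤ X)
    (f c : ℕ → ℂ) (hf : ∀ n, ‖f n‖ ≤ 2) :
    ‖∑ h ∈ Icc 1 H, c h * ∑ n ∈ Icc 1 X, u n * f (n + h)‖ ^ 2 ≤
      8 * X * ∑ t ∈ Icc (-(H : ℤ)) H, RR a X t.natAbs * ‖rho c H t‖ := by
  set w : ℕ → ℂ := fun m => ∑ h ∈ Icc 1 H, c h * tr u X (m - h) with hw
  have h1 : ∑ h ∈ Icc 1 H, c h * ∑ n ∈ Icc 1 X, u n * f (n + h) = ∑ m ∈ Icc 1 (2 * X), f m * w m := by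
    have h2 : ∀ h ∈ Icc 1 H, ∑ n ∈ Icc 1 X, u n * f (n + h) = ∑ m ∈ Icc 1 (2 * X), tr u X (m - h) * f m := by
      intro h hh
      rw [Finset.mem_Icc] at hh
      exact (sum_tr u (fun m x => x * f m) (fun m => zero_mul _) (hh.2.trans hHX)).symm
    rw [Finset.sum_congr rfl fun h hh => by rw [h2 h hh]]
    simp only [Finset.mul_sum, hw]
    rw [Finset.sum_comm]
    refine Finset.sum_congr rfl fun m _ => Finset.sum_congr rfl fun h _ => ?_
    ring
  have h2 : ‖∑ m ∈ Icc 1 (2 * X), f m * w m‖ ^ 2 ≤ 8 * X * ∑ m ∈ Icc 1 (2 * X), ‖w m‖ ^ 2 := by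
    have h3 : ‖∑ m ∈ Icc 1 (2 * X), f m * w m‖ ≤ ∑ m ∈ Icc 1 (2 * X), ‖f m‖ * ‖w m‖ := by
      refine (norm_sum_le _ _).trans (le_of_eq (Finset.sum_congr rfl fun m _ => norm_mul _ _))
    calc ‖∑ m ∈ Icc 1 (2 * X), f m * w m‖ ^ 2 ≤ (∑ m ∈ Icc 1 (2 * X), ‖f m‖ * ‖w m‖) ^ 2 := by gcongr
      _ ≤ (∑ m ∈ Icc 1 (2 * X), ‖f m‖ ^ 2) * ∑ m ∈ Icc 1 (2 * X), ‖w m‖ ^ 2 := Finset.sum_mul_sq_le_sq_mul_sq _ _ _
      _ ≤ (8 * X) * ∑ m ∈ Icc 1 (2 * X), ‖w m‖ ^ 2 := by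
          refine mul_le_mul_of_nonneg_right ?_ (Finset.sum_nonneg fun _ _ => sq_nonneg _)
          calc ∑ m ∈ Icc 1 (2 * X), ‖f m‖ ^ 2 ≤ ∑ _m ∈ Icc 1 (2 * X), (4 : ℝ) := by
                refine Finset.sum_le_sum fun m _ => ?_
                have := hf m
                have h0 := norm_nonneg (f m)
                nlinarith
            _ = 8 * X := by
                rw [Finset.sum_const, Nat.card_Icc, nsmul_eq_mul]
                push_cast [Nat.add_sub_cancel]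
                ring
  rw [h1]
  refine h2.trans (mul_le_mul_of_nonneg_left ?_ (by positivity))
  have h3 : ((∑ m ∈ Icc 1 (2 * X), ‖w m‖ ^ 2 : ℝ) : ℂ) =
      ∑ x ∈ Icc 1 H ×ˢ Icc 1 H, c x.1 * conj (c x.2) * qq u X ((x.1 : ℤ) - x.2) := by
    push_cast
    have h4 : ∀ m, ((‖w m‖ : ℂ)) ^ 2 = ∑ x ∈ Icc 1 H ×ˢ Icc 1 H,
        c x.1 * conj (c x.2) * (tr u X (m - x.1) * conj (tr u X (m - x.2))) := by
      intro m
      rw [← Complex.mul_conj', hw]
      simp only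
      rw [map_sum, Finset.sum_mul_sum, ← Finset.sum_product']
      refine Finset.sum_congr rfl fun x _ => ?_
      rw [map_mul]
      ring
    simp only [h4]
    rw [Finset.sum_comm]
    refine Finset.sum_congr rfl fun x hx => ?_
    rw [Finset.mem_product, Finset.mem_Icc, Finset.mem_Icc] at hx
    rw [← Finset.mul_sum, corr_eq u X x.1 x.2 (hx.1.2.trans hHX) (hx.2.2.trans hHX)]
  have h5 : ∑ x ∈ Icc 1 H ×ˢ Icc 1 H, c x.1 * conj (c x.2) * qq u X ((x.1 : ℤ) - x.2) =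
      ∑ t ∈ Icc (-(H : ℤ)) H, rho c H t * qq u X t := by
    have h6 : ∀ x ∈ Icc 1 H ×ˢ Icc 1 H, (x.1 : ℤ) - x.2 ∈ Icc (-(H : ℤ)) H := by
      intro x hx
      rw [Finset.mem_product, Finset.mem_Icc, Finset.mem_Icc] at hx
      rw [Finset.mem_Icc]
      omega
    rw [← Finset.sum_fiberwise_of_maps_to h6]
    refine Finset.sum_congr rfl fun t _ => ?_
    unfold rho
    rw [Finset.sum_mul]
    refine Finset.sum_congr rfl fun x hx => ?_
    rw [Finset.mem_filter] at hx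
    rw [hx.2]
  have h7 : ∑ m ∈ Icc 1 (2 * X), ‖w m‖ ^ 2 = ‖((∑ m ∈ Icc 1 (2 * X), ‖w m‖ ^ 2 : ℝ) : ℂ)‖ := by
    rw [Complex.norm_real, Real.norm_eq_abs, abs_of_nonneg (Finset.sum_nonneg fun _ _ => sq_nonneg _)]
  rw [h7, h3, h5]
  refine (norm_sum_le _ _).trans (Finset.sum_le_sum fun t _ => ?_)
  rw [norm_mul, mul_comm]
  exact mul_le_mul_of_nonneg_right (norm_qq_le a u hu X t) (norm_nonneg _)

theorem norm_rho_le (c : ℕ → ℂ) (hc : ∀ n, ‖c n‖ ≤ 1) (H : ℕ) (t : ℤ) : ‖rho c H t‖ ≤ H := by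
  unfold rho
  refine (norm_sum_le _ _).trans ?_
  have h1 : ∀ x ∈ (Icc 1 H ×ˢ Icc 1 H).filter (fun x => (x.1 : ℤ) - x.2 = t), ‖c x.1 * conj (c x.2)‖ ≤ 1 := by
    intro x _
    rw [norm_mul, RCLike.norm_conj]
    exact mul_le_one₀ (hc _) (norm_nonneg _) (hc _)
  refine (Finset.sum_le_sum h1).trans ?_
  rw [Finset.sum_const, nsmul_eq_mul, mul_one]
  have h2 : ((Icc 1 H ×ˢ Icc 1 H).filter (fun x => (x.1 : ℤ) - x.2 = t)).card ≤ (Icc 1 H).card := by
    refine Finset.card_le_card_of_injOn (fun x => x.1) ?_ ?_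
    · intro x hx
      rw [Finset.mem_coe, Finset.mem_filter, Finset.mem_product] at hx
      exact hx.1.1
    · intro x hx y hy hxy
      rw [Finset.mem_coe, Finset.mem_filter] at hx hy
      simp only at hxy
      have h3 := hx.2
      have h4 := hy.2
      ext
      · exact hxy
      · omega
  rw [Nat.card_Icc] at h2
  have h3 : ((Icc 1 H ×ˢ Icc 1 H).filter (fun x => (x.1 : ℤ) - x.2 = t)).card ≤ H := by omega
  exact_mod_cast h3

/-- The sum over the differences. -/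
theorem sum_diff {k : ℕ} (a : Fin k → ℕ) (ha : Function.Injective a) :
    ∃ C : ℝ, 0 < C ∧ ∃ X0 : ℕ, ∀ X : ℕ, X0 ≤ X → ∀ H : ℕ, 1 ≤ H → H ≤ X → ∀ (c : ℕ → ℂ) (F : ℝ), 0 ≤ F →
      (∀ n, ‖c n‖ ≤ 1) → (∀ α : ℝ, ‖∑ h ∈ Icc 1 H, c h * MRP.eC ((h : ℝ) * α)‖ ≤ F) →
      ∑ t ∈ Icc (-(H : ℤ)) H, RR a X t.natAbs * ‖rho c H t‖ ≤ C * X * H * (Real.log X ^ k + F) := by
  obtain ⟨C2, hC2, X2, h2⟩ := RR_le a ha
  obtain ⟨C3, hC3, X3, h3⟩ := RR_sq a ha
  refine ⟨√(2 * C3) + (1 + 2 * (k ^ 2 : ℝ)) * C2 , by positivity, max (max X2 X3) 1,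
    fun X hX H hH hHX c F hF0 hc hF => ?_⟩
  have hX2 : X2 ≤ X := (le_max_left _ _).trans ((le_max_left _ _).trans hX)
  have hX3 : X3 ≤ X := (le_max_right _ _).trans ((le_max_left _ _).trans hX)
  have hX1 : 1 ≤ X := (le_max_right _ _).trans hX
  have hX1R : (1 : ℝ) ≤ X := by exact_mod_cast hX1
  have hL : 0 ≤ Real.log X := Real.log_nonneg hX1R
  have hLk : 0 ≤ Real.log X ^ k := pow_nonneg hL k
  have hHR : (0 : ℝ) < H := by exact_mod_cast hH
  set good : ℤ → Prop := fun t => t ≠ 0 ∧ ∀ i j, a i + t.natAbs ≠ a j with hgood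
  have hdec : DecidablePred good := Classical.decPred _
  rw [← Finset.sum_filter_add_sum_filter_not (Icc (-(H : ℤ)) H) good]
  -- the absolute value map is at most two to one
  have htwo : ∀ (T : Finset ℕ) (Φ : ℕ → ℝ), (∀ n, 0 ≤ Φ n) → ∀ B : Finset ℤ, (∀ t ∈ B, t.natAbs ∈ T) →
      ∑ t ∈ B, Φ t.natAbs ≤ 2 * ∑ n ∈ T, Φ n := by
    intro T Φ hΦ B hB
    have e1 : ∑ t ∈ B, Φ t.natAbs = ∑ t ∈ B.filter (fun t => 0 ≤ t), Φ t.natAbs +
        ∑ t ∈ B.filter (fun t => ¬ 0 ≤ t), Φ t.natAbs := (Finset.sum_filter_add_sum_filter_not _ _ _).symm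
    have e2 : ∀ p : ℤ → Prop, ∀ _ : DecidablePred p, (∀ s t : ℤ, p s → p t → s.natAbs = t.natAbs → s = t) →
        ∑ t ∈ B.filter p, Φ t.natAbs ≤ ∑ n ∈ T, Φ n := by
      intro p _ hp
      rw [← Finset.sum_image (f := Φ) (g := Int.natAbs) (s := B.filter p) (by
        intro s hs t ht hst
        rw [Finset.mem_coe, Finset.mem_filter] at hs ht
        exact hp s t hs.2 ht.2 hst)]
      refine Finset.sum_le_sum_of_subset_of_nonneg ?_ fun n _ _ => hΦ n
      intro n hn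
      rw [Finset.mem_image] at hn
      obtain ⟨t, ht, rfl⟩ := hn
      exact hB t (Finset.mem_filter.1 ht).1
    have e3 := e2 (fun t => 0 ≤ t) inferInstance (by intro s t h1 h2 h3; omega)
    have e4 := e2 (fun t => ¬ 0 ≤ t) inferInstance (by intro s t h1 h2 h3; omega)
    rw [e1]
    linarith
  have hG : ∑ t ∈ (Icc (-(H : ℤ)) H).filter good, RR a X t.natAbs * ‖rho c H t‖ ≤ √(2 * C3) * X * H * F := by
    have e1 : ∑ t ∈ (Icc (-(H : ℤ)) H).filter good, RR a X t.natAbs ^ 2 ≤ 2 * (C3 * H * X ^ 2) := by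
      refine (htwo ((Icc 1 H).filter (fun t => ∀ i j, a i + t ≠ a j)) (fun n => RR a X n ^ 2)
        (fun n => sq_nonneg _) _ ?_).trans ?_
      · intro t ht
        rw [Finset.mem_filter, Finset.mem_Icc] at ht
        rw [Finset.mem_filter, Finset.mem_Icc]
        obtain ⟨⟨h4, h5⟩, h6, h7⟩ := ht
        exact ⟨by omega, h7⟩
      · exact mul_le_mul_of_nonneg_left (h3 X hX3 H hH hHX) (by norm_num)
    have e2 : ∑ t ∈ (Icc (-(H : ℤ)) H).filter good, ‖rho c H t‖ ^ 2 ≤ F ^ 2 * H := by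
      refine (Finset.sum_le_sum_of_subset_of_nonneg (Finset.filter_subset _ _) fun _ _ _ => sq_nonneg _).trans ?_
      refine (sum_rho_sq c H F hF).trans (mul_le_mul_of_nonneg_left ?_ (sq_nonneg _))
      calc ∑ h ∈ Icc 1 H, ‖c h‖ ^ 2 ≤ ∑ _h ∈ Icc 1 H, (1 : ℝ) := by
            refine Finset.sum_le_sum fun h _ => ?_
            exact pow_le_one₀ (norm_nonneg _) (hc h)
        _ = H := by simp
    refine (abs_le_of_sq_le_sq' ?_ (by positivity)).2
    refine (Finset.sum_mul_sq_le_sq_mul_sq _ _ _).trans ?_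
    refine (mul_le_mul e1 e2 (Finset.sum_nonneg fun _ _ => sq_nonneg _) (by positivity)).trans (le_of_eq ?_)
    rw [mul_pow, mul_pow, mul_pow, Real.sq_sqrt (by positivity)]
    ring
  have hBd : ∑ t ∈ (Icc (-(H : ℤ)) H).filter (fun t => ¬ good t), RR a X t.natAbs * ‖rho c H t‖ ≤
      (1 + 2 * (k ^ 2 : ℝ)) * (C2 * X * Real.log X ^ k * H) := by
    have e1 : ∀ t ∈ (Icc (-(H : ℤ)) H).filter (fun t => ¬ good t), RR a X t.natAbs * ‖rho c H t‖ ≤
        C2 * X * Real.log X ^ k * H := by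
      intro t ht
      rw [Finset.mem_filter, Finset.mem_Icc] at ht
      refine mul_le_mul (h2 X hX2 t.natAbs (by omega)) (norm_rho_le c hc H t) (norm_nonneg _) (by positivity)
    refine (Finset.sum_le_sum e1).trans ?_
    rw [Finset.sum_const, nsmul_eq_mul]
    refine mul_le_mul_of_nonneg_right ?_ (by positivity)
    have e2 : ((Icc (-(H : ℤ)) H).filter (fun t => ¬ good t)).card ≤ 1 + 2 * k ^ 2 := by
      have e3 : (Icc (-(H : ℤ)) H).filter (fun t => ¬ good t) ⊆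
          {0} ∪ ((Icc 1 H).filter (fun t => ¬ ∀ i j, a i + t ≠ a j)).image (fun n : ℕ => (n : ℤ)) ∪
            ((Icc 1 H).filter (fun t => ¬ ∀ i j, a i + t ≠ a j)).image (fun n : ℕ => -(n : ℤ)) := by
        intro t ht
        rw [Finset.mem_filter, Finset.mem_Icc] at ht
        obtain ⟨⟨h4, h5⟩, h6⟩ := ht
        rw [Finset.mem_union, Finset.mem_union, Finset.mem_singleton]
        by_cases h0 : t = 0
        · exact Or.inl (Or.inl h0)
        have h7 : ¬ ∀ i j, a i + t.natAbs ≠ a j := fun h8 => h6 ⟨h0, h8⟩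
        rcases le_total 0 t with h | h
        · left; right
          rw [Finset.mem_image]
          refine ⟨t.natAbs, ?_, by omega⟩
          rw [Finset.mem_filter, Finset.mem_Icc]
          exact ⟨by omega, h7⟩
        · right
          rw [Finset.mem_image]
          refine ⟨t.natAbs, ?_, by omega⟩
          rw [Finset.mem_filter, Finset.mem_Icc]
          exact ⟨by omega, h7⟩
      refine (Finset.card_le_card e3).trans ?_
      refine (Finset.card_union_le _ _).trans ?_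
      have e4 := Finset.card_union_le ({0} : Finset ℤ)
        (((Icc 1 H).filter (fun t => ¬ ∀ i j, a i + t ≠ a j)).image (fun n : ℕ => (n : ℤ)))
      have e5 : (((Icc 1 H).filter (fun t => ¬ ∀ i j, a i + t ≠ a j)).image (fun n : ℕ => (n : ℤ))).card ≤ k ^ 2 :=
        Finset.card_image_le.trans (card_bad_le a H)
      have e6 : (((Icc 1 H).filter (fun t => ¬ ∀ i j, a i + t ≠ a j)).image (fun n : ℕ => -(n : ℤ))).card ≤ k ^ 2 :=
        Finset.card_image_le.trans (card_bad_le a H)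
      have e7 : ({0} : Finset ℤ).card = 1 := Finset.card_singleton _
      omega
    exact_mod_cast e2
  refine (add_le_add hG hBd).trans ?_
  have hs : 0 ≤ √(2 * C3) := Real.sqrt_nonneg _
  have hk2 : (0 : ℝ) ≤ (k ^ 2 : ℝ) := by positivity
  have e : (√(2 * C3) + (1 + 2 * (k ^ 2 : ℝ)) * C2) * X * H * (Real.log X ^ k + F) =
      √(2 * C3) * X * H * F + (1 + 2 * (k ^ 2 : ℝ)) * (C2 * X * Real.log X ^ k * H) +
        (√(2 * C3) * X * H * Real.log X ^ k + (1 + 2 * (k ^ 2 : ℝ)) * C2 * X * H * F) := by ring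
  rw [e]
  have : 0 ≤ √(2 * C3) * X * H * Real.log X ^ k + (1 + 2 * (k ^ 2 : ℝ)) * C2 * X * H * F := by positivity
  linarith

end Pool.Agent.Helper83.HLC
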