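import Pool.Agent.Helper83.HLC.Shift

/-!
# HLC-7: short exponential sums of growing length
-/

set_option autoImplicit false

namespace Pool.Agent.Helper83.HLC

open Finset ComplexConjugate

/-- The centred function `b (Ω n)`. -/
noncomputable def fb (X : ℕ) (b : ℕ → ℝ) (n : ℕ) : ℂ := ((b (MRP.Om n) - MRP.mx X b : ℝ) : ℂ)

theorem abs_mx_le (X : ℕ) {b : ℕ → ℝ} (hb : ∀ m, |b m| ≤ 1) : |MRP.mx X b| ≤ 1 := by
  unfold MRP.mx
  rcases Nat.eq_zero_or_pos X with rfl | hX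
  · simp
  have hX' : (0 : ℝ) < X := by exact_mod_cast hX
  rw [abs_div, abs_of_pos hX', div_le_one hX']
  refine (Finset.abs_sum_le_sum_abs _ _).trans ?_
  calc ∑ n ∈ Icc 1 X, |b (MRP.Om n)| ≤ ∑ _n ∈ Icc 1 X, (1 : ℝ) := Finset.sum_le_sum fun n _ => hb _
    _ = X := by simp

theorem norm_fb_le (X : ℕ) {b : ℕ → ℝ} (hb : ∀ m, |b m| ≤ 1) (n : ℕ) : ‖fb X b n‖ ≤ 2 := by
  unfold fb
  rw [Complex.norm_real, Real.norm_eq_abs]
  have h1 := abs_sub (b (MRP.Om n)) (MRP.mx X b)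
  have h2 := hb (MRP.Om n)
  have h3 := abs_mx_le X hb
  linarith

/-- Comparison of a long window with the windows of length `H0`. -/
theorem TT_block {f : ℕ → ℂ} (hf : ∀ n, ‖f n‖ ≤ 2) (H H0 : ℕ) (hH0 : 1 ≤ H0) (α : ℝ) (n : ℕ) :
    ‖TT f H α n‖ ≤ (1 / (H0 : ℝ)) * ∑ h ∈ Icc 1 H, ‖TT f H0 α (n + h)‖ + 4 * H0 := by
  have hH0' : (0 : ℝ) < H0 := by exact_mod_cast hH0
  set F : ℕ → ℂ := fun h => f (n + h) * MRP.eC ((h : ℝ) * α) with hF
  have hFb : ∀ h, ‖F h‖ ≤ 2 := fun h => by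
    rw [hF]
    simp only
    rw [norm_mul, norm_eC, mul_one]
    exact hf _
  have h1 : ∀ j ∈ Icc 1 H0, ‖∑ h ∈ Icc 1 H, F (h + j) - TT f H α n‖ ≤ 4 * H0 := by
    intro j hj
    rw [Finset.mem_Icc] at hj
    refine (norm_sum_shift F 2 hFb H j).trans ?_
    have : (j : ℝ) ≤ H0 := by exact_mod_cast hj.2
    linarith
  have h2 : ∑ j ∈ Icc 1 H0, ∑ h ∈ Icc 1 H, F (h + j) =
      ∑ h ∈ Icc 1 H, MRP.eC ((h : ℝ) * α) * TT f H0 α (n + h) := by
    rw [Finset.sum_comm]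
    refine Finset.sum_congr rfl fun h _ => ?_
    unfold TT
    rw [Finset.mul_sum]
    refine Finset.sum_congr rfl fun j _ => ?_
    rw [hF]
    simp only
    have e1 : n + (h + j) = n + h + j := by omega
    have e2 : ((h + j : ℕ) : ℝ) * α = (h : ℝ) * α + (j : ℝ) * α := by push_cast; ring
    rw [e1, e2, eC_add]
    ring
  have h3 : (H0 : ℂ) * TT f H α n = ∑ j ∈ Icc 1 H0, ∑ h ∈ Icc 1 H, F (h + j) -
      ∑ j ∈ Icc 1 H0, (∑ h ∈ Icc 1 H, F (h + j) - TT f H α n) := by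
    rw [Finset.sum_sub_distrib, Finset.sum_const, Nat.card_Icc, nsmul_eq_mul]
    push_cast [Nat.add_sub_cancel]
    ring
  have h4 : (H0 : ℝ) * ‖TT f H α n‖ ≤ ∑ h ∈ Icc 1 H, ‖TT f H0 α (n + h)‖ + H0 * (4 * H0) := by
    have e : ‖(H0 : ℂ) * TT f H α n‖ = (H0 : ℝ) * ‖TT f H α n‖ := by
      rw [norm_mul, Complex.norm_natCast]
    rw [← e, h3, h2]
    refine (norm_sub_le _ _).trans (add_le_add ?_ ?_)
    · refine (norm_sum_le _ _).trans (Finset.sum_le_sum fun h _ => ?_)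
      rw [norm_mul, norm_eC, one_mul]
    · refine (norm_sum_le _ _).trans ((Finset.sum_le_sum h1).trans (le_of_eq ?_))
      rw [Finset.sum_const, Nat.card_Icc, nsmul_eq_mul]
      push_cast [Nat.add_sub_cancel]
      ring
  have h5 : ‖TT f H α n‖ = (1 / (H0 : ℝ)) * ((H0 : ℝ) * ‖TT f H α n‖) := by
    field_simp
  rw [h5]
  calc (1 / (H0 : ℝ)) * ((H0 : ℝ) * ‖TT f H α n‖) ≤
        (1 / (H0 : ℝ)) * (∑ h ∈ Icc 1 H, ‖TT f H0 α (n + h)‖ + H0 * (4 * H0)) := by gcongr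
    _ = _ := by field_simp

theorem sum_shift_le {F : ℕ → ℝ} (hF : ∀ n, 0 ≤ F n) (X Y h : ℕ) (hY : X + h ≤ Y) :
    ∑ n ∈ Icc 1 X, F (n + h) ≤ ∑ m ∈ Icc 1 Y, F m := by
  have h1 : ∑ n ∈ Icc 1 X, F (n + h) = ∑ m ∈ (Icc 1 X).image (fun n => n + h), F m := by
    rw [Finset.sum_image fun x _ y _ h => by simpa using h]
  rw [h1]
  refine Finset.sum_le_sum_of_subset_of_nonneg ?_ fun m _ _ => hF m
  intro m hm
  rw [Finset.mem_image] at hm
  obtain ⟨n, hn, rfl⟩ := hm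
  rw [Finset.mem_Icc] at hn ⊢
  omega

/-- The centred function, shifted. -/
noncomputable def fy (X : ℕ) (b : ℕ → ℝ) (y n : ℕ) : ℂ := fb X b (n + y)

theorem norm_fy_le (X : ℕ) {b : ℕ → ℝ} (hb : ∀ m, |b m| ≤ 1) (y n : ℕ) : ‖fy X b y n‖ ≤ 2 := norm_fb_le X hb _

theorem TT_fy (X : ℕ) (b : ℕ → ℝ) (y H : ℕ) (α : ℝ) (n : ℕ) : TT (fy X b y) H α n = TT (fb X b) H α (n + y) := by
  unfold TT fy
  refine Finset.sum_congr rfl fun h _ => ?_
  have e : n + h + y = n + y + h := by omega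
  rw [e]

theorem exp_growing (hE : MRP.EXPx) (hL : MRP.LAWx) (δ : ℝ) (hδ : 0 < δ) :
    ∃ H1 X1 : ℕ, ∀ X : ℕ, X1 ≤ X → ∀ H : ℕ, H1 ≤ H → H ≤ X → ∀ y : ℕ, y ≤ X →
      ∀ b : ℕ → ℝ, (∀ m, |b m| ≤ 1) → ∀ α : ℝ,
      ∑ n ∈ Icc 1 (2 * X), ‖TT (fy X b y) H α n‖ ≤ δ * H * X := by
  obtain ⟨H0', hH0'⟩ := hE (δ / 16) (by positivity)
  set H0 := max H0' 1 with hH0
  have hH01 : 1 ≤ H0 := le_max_right _ _
  have hH0R : (0 : ℝ) < H0 := by exact_mod_cast hH01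
  obtain ⟨x0, hx0⟩ := hH0' H0 (le_max_left _ _)
  obtain ⟨x1, hx1⟩ := hL (δ / 16) (by positivity) 4 (by norm_num)
  obtain ⟨H1, hH1⟩ := exists_nat_ge (16 * (H0 : ℝ) / δ)
  refine ⟨H1, max x0 x1, fun X hX H hH hHX y hy b hb α => ?_⟩
  have hx0X : x0 ≤ 4 * X := by have := le_max_left x0 x1; omega
  have hx1X : x1 ≤ 4 * X := by have := le_max_right x0 x1; omega
  have e1 := hx0 (4 * X) hx0X b hb α
  have e2 := (hx1 (4 * X) hx1X b hb).2
  have e3 : 4 * X / 4 = X := by omega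
  rw [e3] at e2
  have hXR : (0 : ℝ) ≤ X := Nat.cast_nonneg _
  have hblock : ∑ n ∈ Icc 1 (4 * X), ‖TT (fb X b) H0 α n‖ ≤ δ / 2 * H0 * X := by
    have h1 : ∀ n ∈ Icc 1 (4 * X), ‖TT (fb X b) H0 α n‖ ≤
        ‖∑ j ∈ Icc 1 H0, ((b (MRP.Om (n + j)) - MRP.mx (4 * X) b : ℝ) : ℂ) * MRP.eC ((j : ℝ) * α)‖ + δ / 16 * H0 := by
      intro n _
      have h2 : TT (fb X b) H0 α n =
          ∑ j ∈ Icc 1 H0, ((b (MRP.Om (n + j)) - MRP.mx (4 * X) b : ℝ) : ℂ) * MRP.eC ((j : ℝ) * α) +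
          ∑ j ∈ Icc 1 H0, ((MRP.mx (4 * X) b - MRP.mx X b : ℝ) : ℂ) * MRP.eC ((j : ℝ) * α) := by
        unfold TT fb
        rw [← Finset.sum_add_distrib]
        refine Finset.sum_congr rfl fun j _ => ?_
        push_cast
        ring
      rw [h2]
      refine (norm_add_le _ _).trans (add_le_add le_rfl ?_)
      refine (norm_sum_le _ _).trans ?_
      calc ∑ j ∈ Icc 1 H0, ‖((MRP.mx (4 * X) b - MRP.mx X b : ℝ) : ℂ) * MRP.eC ((j : ℝ) * α)‖ ≤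
            ∑ _j ∈ Icc 1 H0, δ / 16 := by
            refine Finset.sum_le_sum fun j _ => ?_
            rw [norm_mul, norm_eC, mul_one, Complex.norm_real, Real.norm_eq_abs, abs_sub_comm]
            exact e2
        _ = δ / 16 * H0 := by
            rw [Finset.sum_const, Nat.card_Icc, nsmul_eq_mul]
            push_cast [Nat.add_sub_cancel]
            ring
    refine (Finset.sum_le_sum h1).trans ?_
    rw [Finset.sum_add_distrib, Finset.sum_const, Nat.card_Icc, nsmul_eq_mul]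
    push_cast [Nat.add_sub_cancel] at e1 ⊢
    nlinarith
  have h1 : ∑ n ∈ Icc 1 (2 * X), ‖TT (fy X b y) H α n‖ ≤
      (1 / (H0 : ℝ)) * (H * (δ / 2 * H0 * X)) + 4 * H0 * (2 * X) := by
    refine (Finset.sum_le_sum fun n _ => TT_block (norm_fy_le X hb y) H H0 hH01 α n).trans ?_
    rw [Finset.sum_add_distrib, Finset.sum_const, Nat.card_Icc, nsmul_eq_mul, ← Finset.mul_sum]
    have h2 : ∑ n ∈ Icc 1 (2 * X), ∑ h ∈ Icc 1 H, ‖TT (fy X b y) H0 α (n + h)‖ ≤ H * (δ / 2 * H0 * X) := by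
      rw [Finset.sum_comm]
      calc ∑ h ∈ Icc 1 H, ∑ n ∈ Icc 1 (2 * X), ‖TT (fy X b y) H0 α (n + h)‖ ≤
            ∑ _h ∈ Icc 1 H, (δ / 2 * H0 * X) := by
            refine Finset.sum_le_sum fun h hh => ?_
            rw [Finset.mem_Icc] at hh
            have e4 : ∀ n, ‖TT (fy X b y) H0 α (n + h)‖ = ‖TT (fb X b) H0 α (n + (h + y))‖ := fun n => by
              rw [TT_fy, add_assoc]
            simp only [e4]
            exact (sum_shift_le (fun n => norm_nonneg _) (2 * X) (4 * X) (h + y) (by omega)).trans hblock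
        _ = _ := by
            rw [Finset.sum_const, Nat.card_Icc, nsmul_eq_mul]
            push_cast [Nat.add_sub_cancel]
            ring
    have h3 : (0 : ℝ) ≤ 1 / (H0 : ℝ) := by positivity
    push_cast [Nat.add_sub_cancel]
    have h4 := mul_le_mul_of_nonneg_left h2 h3
    linarith
  refine h1.trans ?_
  have hHR : 16 * (H0 : ℝ) / δ ≤ H := hH1.trans (by exact_mod_cast hH)
  rw [div_le_iff₀ hδ] at hHR
  have e5 : (1 / (H0 : ℝ)) * (H * (δ / 2 * H0 * X)) = δ / 2 * H * X := by field_simp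
  rw [e5]
  nlinarith

end Pool.Agent.Helper83.HLC
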