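import Pool.Agent.Helper83.HLC.Avg

/-!
# HLC-10: the theorem for bounded functions of `Ω`
-/

set_option autoImplicit false

namespace Pool.Agent.Helper83.HLC

open Finset ComplexConjugate

theorem avg (hE : MRP.EXPx) (hL : MRP.LAWx) {k : ℕ} (a : Fin k → ℕ) (ha : Function.Injective a)
    (ε : ℝ) (hε : 0 < ε) :
    ∃ K : ℝ, 0 < K ∧ ∃ X1 : ℕ, ∀ X : ℕ, X1 ≤ X → ∀ H : ℕ, K * (1 + Real.log X ^ k) ≤ H → H ≤ X → ∀ y : ℕ, y ≤ X →
      ∀ b : ℕ → ℝ, (∀ m, |b m| ≤ 1) → ∀ u : ℕ → ℂ, (∀ n, ‖u n‖ ≤ GG a n) →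
      ∑ h ∈ Icc 1 H, ‖∑ n ∈ Icc 1 X, u n * fy X b y (n + h)‖ ≤ ε * H * X := by
  obtain ⟨C1, hC1, X1, h1⟩ := sum_GG a ha
  obtain ⟨C5, hC5, X5, h5⟩ := sum_diff a ha
  -- |A_h| ≤ 2 C1 X =: B X
  set B : ℝ := 2 * C1 with hB
  have hB0 : 0 < B := by positivity
  -- target: sum |A|^2 ≤ ε^2 H X^2
  set κ : ℝ := (ε ^ 2 / B) ^ 2 / (16 * C5) with hκ
  have hκ0 : 0 < κ := by positivity
  obtain ⟨H2, X2, h2⟩ := smooth hE hL a ha (κ * B) 1 (by positivity) one_pos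
  refine ⟨max (max 1 H2) (1 / κ), by positivity, max (max X1 X5) (max X2 1), fun X hX H hH hHX y hy b hb u hu => ?_⟩
  have hX1 : X1 ≤ X := (le_max_left _ _).trans ((le_max_left _ _).trans hX)
  have hX5 : X5 ≤ X := (le_max_right _ _).trans ((le_max_left _ _).trans hX)
  have hX2 : X2 ≤ X := (le_max_left _ _).trans ((le_max_right _ _).trans hX)
  have hX0 : 1 ≤ X := (le_max_right _ _).trans ((le_max_right _ _).trans hX)
  have hXR : (1 : ℝ) ≤ X := by exact_mod_cast hX0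
  have hLg : 0 ≤ Real.log X := Real.log_nonneg hXR
  have hLk : 0 ≤ Real.log X ^ k := pow_nonneg hLg k
  have hK1 : max (max 1 (H2 : ℝ)) (1 / κ) ≤ H := by
    refine le_trans ?_ hH
    have : (0 : ℝ) ≤ max (max 1 (H2 : ℝ)) (1 / κ) := (zero_le_one.trans (le_max_left _ _)).trans (le_max_left _ _)
    nlinarith
  have hH1R : (1 : ℝ) ≤ H := (le_max_left _ _).trans ((le_max_left _ _).trans hK1)
  have hH1 : 1 ≤ H := by exact_mod_cast hH1R
  have hH2 : H2 ≤ H := by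
    have : (H2 : ℝ) ≤ H := (le_max_right _ _).trans ((le_max_left _ _).trans hK1)
    exact_mod_cast this
  have hHL : 1 * Real.log X ^ k ≤ H := by
    have e : (1 : ℝ) ≤ max (max 1 (H2 : ℝ)) (1 / κ) := (le_max_left _ _).trans (le_max_left _ _)
    nlinarith
  have hHκ : Real.log X ^ k ≤ κ * H := by
    have e : 1 / κ ≤ max (max 1 (H2 : ℝ)) (1 / κ) := le_max_right _ _
    have e2 : 1 / κ * (1 + Real.log X ^ k) ≤ H := (mul_le_mul_of_nonneg_right e (by positivity)).trans hH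
    rw [div_mul_eq_mul_div, one_mul, div_le_iff₀ hκ0] at e2
    linarith
  have hHR : (0 : ℝ) < H := by linarith
  have hX0R : (0 : ℝ) < X := by linarith
  set A : ℕ → ℂ := fun h => ∑ n ∈ Icc 1 X, u n * fy X b y (n + h) with hA
  have hAle : ∀ h, ‖A h‖ ≤ B * X := by
    intro h
    rw [hA]
    simp only
    refine (norm_sum_le _ _).trans ?_
    calc ∑ n ∈ Icc 1 X, ‖u n * fy X b y (n + h)‖ ≤ ∑ n ∈ Icc 1 X, GG a n * 2 := by
          refine Finset.sum_le_sum fun n _ => ?_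
          rw [norm_mul]
          exact mul_le_mul (hu n) (norm_fy_le X hb y _) (norm_nonneg _) (GG_nonneg _ _)
      _ = 2 * ∑ n ∈ Icc 1 X, GG a n := by rw [← Finset.sum_mul, mul_comm]
      _ ≤ 2 * (C1 * X) := mul_le_mul_of_nonneg_left (h1 X hX1) (by norm_num)
      _ = B * X := by rw [hB]; ring
  set c : ℕ → ℂ := fun h => conj (A h) * ((1 / (B * X) : ℝ) : ℂ) with hc
  have hc1 : ∀ h, ‖c h‖ ≤ 1 := by
    intro h
    rw [hc]
    simp only
    rw [norm_mul, RCLike.norm_conj, Complex.norm_real, Real.norm_eq_abs, abs_of_pos (by positivity),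
      mul_one_div, div_le_one (by positivity)]
    exact hAle h
  have hF : ∀ α : ℝ, ‖∑ h ∈ Icc 1 H, c h * MRP.eC ((h : ℝ) * α)‖ ≤ κ * H := by
    intro α
    have e1 : ∑ h ∈ Icc 1 H, c h * MRP.eC ((h : ℝ) * α) =
        ((1 / (B * X) : ℝ) : ℂ) * conj (∑ n ∈ Icc 1 X, u n * TT (fy X b y) H (-α) n) := by
      unfold TT
      rw [map_sum, Finset.mul_sum]
      simp only [hc, hA, map_sum, map_mul, Finset.mul_sum, Finset.sum_mul]
      rw [Finset.sum_comm]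
      refine Finset.sum_congr rfl fun n _ => Finset.sum_congr rfl fun h _ => ?_
      have e2 : conj (MRP.eC ((h : ℝ) * -α)) = MRP.eC ((h : ℝ) * α) := by
        rw [← eC_neg]
        congr 1
        ring
      rw [e2]
      ring
    rw [e1, norm_mul, RCLike.norm_conj, Complex.norm_real, Real.norm_eq_abs, abs_of_pos (by positivity)]
    have e3 : ‖∑ n ∈ Icc 1 X, u n * TT (fy X b y) H (-α) n‖ ≤ κ * B * H * X := by
      refine (norm_sum_le _ _).trans (le_trans ?_ (h2 X hX2 H hH2 hHL hHX y hy b hb (-α)))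
      refine Finset.sum_le_sum fun n _ => ?_
      rw [norm_mul]
      exact mul_le_mul_of_nonneg_right (hu n) (norm_nonneg _)
    calc 1 / (B * X) * ‖∑ n ∈ Icc 1 X, u n * TT (fy X b y) H (-α) n‖ ≤ 1 / (B * X) * (κ * B * H * X) := by gcongr
      _ = κ * H := by field_simp
  have e1 := cs_step a u hu X H hHX (fy X b y) c (norm_fy_le X hb y)
  have e2 := h5 X hX5 H hH1 hHX c (κ * H) (by positivity) hc1 hF
  have e3 : ∑ h ∈ Icc 1 H, c h * ∑ n ∈ Icc 1 X, u n * fy X b y (n + h) =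
      (((1 / (B * X)) * ∑ h ∈ Icc 1 H, ‖A h‖ ^ 2 : ℝ) : ℂ) := by
    push_cast
    rw [Finset.mul_sum]
    refine Finset.sum_congr rfl fun h _ => ?_
    change conj (A h) * ((1 / (B * X) : ℝ) : ℂ) * A h = _
    rw [← Complex.mul_conj']
    push_cast
    ring
  rw [e3, Complex.norm_real, Real.norm_eq_abs, sq_abs] at e1
  have e4 : (1 / (B * X) * ∑ h ∈ Icc 1 H, ‖A h‖ ^ 2) ^ 2 ≤ (ε ^ 2 / B * H * X) ^ 2 := by
    refine e1.trans ?_
    calc 8 * (X : ℝ) * ∑ t ∈ Icc (-(H : ℤ)) H, RR a X t.natAbs * ‖rho c H t‖ ≤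
          8 * X * (C5 * X * H * (Real.log X ^ k + κ * H)) := mul_le_mul_of_nonneg_left e2 (by positivity)
      _ ≤ 8 * X * (C5 * X * H * (κ * H + κ * H)) := by gcongr
      _ = (16 * C5 * κ) * (H * X) ^ 2 := by ring
      _ = (ε ^ 2 / B * H * X) ^ 2 := by
          have e5 : 16 * C5 * κ = (ε ^ 2 / B) ^ 2 := by rw [hκ]; field_simp
          rw [e5]
          ring
  have e5 : 1 / (B * X) * ∑ h ∈ Icc 1 H, ‖A h‖ ^ 2 ≤ ε ^ 2 / B * H * X :=
    (abs_le_of_sq_le_sq' e4 (by positivity)).2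
  have e6 : ∑ h ∈ Icc 1 H, ‖A h‖ ^ 2 ≤ ε ^ 2 * H * X ^ 2 := by
    have e7 : ∑ h ∈ Icc 1 H, ‖A h‖ ^ 2 = (B * X) * (1 / (B * X) * ∑ h ∈ Icc 1 H, ‖A h‖ ^ 2) := by field_simp
    rw [e7]
    refine (mul_le_mul_of_nonneg_left e5 (by positivity)).trans (le_of_eq ?_)
    field_simp
  refine (abs_le_of_sq_le_sq' ?_ (by positivity)).2
  calc (∑ h ∈ Icc 1 H, ‖A h‖) ^ 2 ≤ ((Icc 1 H).card : ℝ) * ∑ h ∈ Icc 1 H, ‖A h‖ ^ 2 := sq_sum_le_card_mul_sum_sq
    _ ≤ (H : ℝ) * (ε ^ 2 * H * X ^ 2) := by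
        rw [Nat.card_Icc, Nat.add_sub_cancel]
        exact mul_le_mul_of_nonneg_left e6 hHR.le
    _ = (ε * H * X) ^ 2 := by ring

end Pool.Agent.Helper83.HLC
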