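import Pool.Agent.Helper83.HLC.Defs
import Pool.Agent.Helper6.MR.Iface2

/-!
# HLC-6: shifts, reindexing, growing lengths
-/

set_option autoImplicit false

namespace Pool.Agent.Helper83.HLC

open Finset ComplexConjugate

theorem norm_eC (x : ℝ) : ‖MRP.eC x‖ = 1 := by
  unfold MRP.eC
  rw [show (2 * (Real.pi : ℂ) * Complex.I * (x : ℂ)) = ((2 * Real.pi * x : ℝ) : ℂ) * Complex.I by
    push_cast; ring, Complex.norm_exp_ofReal_mul_I]

theorem eC_add (x y : ℝ) : MRP.eC (x + y) = MRP.eC x * MRP.eC y := by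
  unfold MRP.eC
  rw [← Complex.exp_add]
  congr 1
  push_cast
  ring

theorem eC_neg (x : ℝ) : MRP.eC (-x) = conj (MRP.eC x) := by
  unfold MRP.eC
  rw [← Complex.exp_conj]
  congr 1
  simp only [map_mul, Complex.conj_I, Complex.conj_ofReal, map_ofNat]
  push_cast
  ring

theorem sum_shift_one {E : Type*} [AddCommGroup E] (F : ℕ → E) (H : ℕ) :
    ∑ h ∈ Icc 1 H, F (h + 1) = ∑ h ∈ Icc 1 H, F h + (F (H + 1) - F 1) := by
  induction H with
  | zero => simp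
  | succ H ih =>
    rw [Finset.sum_Icc_succ_top (by omega), Finset.sum_Icc_succ_top (by omega), ih]
    abel

theorem norm_sum_shift {E : Type*} [SeminormedAddCommGroup E] (F : ℕ → E) (B : ℝ) (hF : ∀ n, ‖F n‖ ≤ B) (H j : ℕ) :
    ‖∑ h ∈ Icc 1 H, F (h + j) - ∑ h ∈ Icc 1 H, F h‖ ≤ 2 * j * B := by
  induction j with
  | zero => simp
  | succ j ih =>
    have h1 := sum_shift_one (fun n => F (n + j)) H
    have h2 : ∑ h ∈ Icc 1 H, F (h + (j + 1)) = ∑ h ∈ Icc 1 H, F (h + j) + (F (H + 1 + j) - F (1 + j)) := by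
      rw [← h1]
      refine Finset.sum_congr rfl fun h _ => ?_
      congr 1
      omega
    rw [h2]
    have h3 : ‖F (H + 1 + j) - F (1 + j)‖ ≤ B + B := (norm_sub_le _ _).trans (add_le_add (hF _) (hF _))
    have h4 : ∑ h ∈ Icc 1 H, F (h + j) + (F (H + 1 + j) - F (1 + j)) - ∑ h ∈ Icc 1 H, F h =
        (∑ h ∈ Icc 1 H, F (h + j) - ∑ h ∈ Icc 1 H, F h) + (F (H + 1 + j) - F (1 + j)) := by abel
    rw [h4]
    refine (norm_add_le _ _).trans ((add_le_add ih h3).trans (le_of_eq ?_))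
    push_cast
    ring

/-- The short exponential sum. -/
noncomputable def TT (f : ℕ → ℂ) (H : ℕ) (α : ℝ) (n : ℕ) : ℂ :=
  ∑ h ∈ Icc 1 H, f (n + h) * MRP.eC ((h : ℝ) * α)

theorem norm_TT_le {f : ℕ → ℂ} {B : ℝ} (hf : ∀ n, ‖f n‖ ≤ B) (H : ℕ) (α : ℝ) (n : ℕ) : ‖TT f H α n‖ ≤ B * H := by
  unfold TT
  refine (norm_sum_le _ _).trans ?_
  calc ∑ h ∈ Icc 1 H, ‖f (n + h) * MRP.eC ((h : ℝ) * α)‖ ≤ ∑ _h ∈ Icc 1 H, B := by
        refine Finset.sum_le_sum fun h _ => ?_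
        rw [norm_mul, norm_eC, mul_one]
        exact hf _
    _ = B * H := by
        rw [Finset.sum_const, Nat.card_Icc, nsmul_eq_mul]
        push_cast [Nat.add_sub_cancel]
        ring

theorem norm_TT_shift {f : ℕ → ℂ} {B : ℝ} (hf : ∀ n, ‖f n‖ ≤ B) (H : ℕ) (α : ℝ) (n s : ℕ) :
    ‖TT f H α n‖ ≤ ‖TT f H α (n + s)‖ + 2 * s * B := by
  have h1 := norm_sum_shift (fun h => f (n + h) * MRP.eC ((h : ℝ) * α)) B (fun h => by
    rw [norm_mul, norm_eC, mul_one]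
    exact hf _) H s
  have h2 : ∑ h ∈ Icc 1 H, f (n + (h + s)) * MRP.eC (((h + s : ℕ) : ℝ) * α) =
      MRP.eC ((s : ℝ) * α) * TT f H α (n + s) := by
    unfold TT
    rw [Finset.mul_sum]
    refine Finset.sum_congr rfl fun h _ => ?_
    have e1 : n + (h + s) = n + s + h := by omega
    have e2 : ((h + s : ℕ) : ℝ) * α = (s : ℝ) * α + (h : ℝ) * α := by push_cast; ring
    rw [e1, e2, eC_add]
    ring
  rw [h2] at h1
  have h3 : ‖MRP.eC ((s : ℝ) * α) * TT f H α (n + s)‖ = ‖TT f H α (n + s)‖ := by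
    rw [norm_mul, norm_eC, one_mul]
  have h4 : ‖TT f H α n‖ ≤ ‖MRP.eC ((s : ℝ) * α) * TT f H α (n + s)‖ +
      ‖MRP.eC ((s : ℝ) * α) * TT f H α (n + s) - TT f H α n‖ := by
    have h5 := norm_sub_norm_le (TT f H α n) (MRP.eC ((s : ℝ) * α) * TT f H α (n + s))
    rw [norm_sub_rev] at h5
    linarith
  rw [h3] at h4
  exact h4.trans (add_le_add le_rfl h1)

/-- The truncation to `[1, X]`. -/
def tr {E : Type*} [Zero E] (u : ℕ → E) (X n : ℕ) : E := if 1 ≤ n ∧ n ≤ X then u n else 0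

theorem sum_tr {E : Type*} [AddCommMonoid E] (u : ℕ → E) (F : ℕ → E → E) (hF : ∀ m, F m 0 = 0) {X s : ℕ} (hs : s ≤ X) :
    ∑ m ∈ Icc 1 (2 * X), F m (tr u X (m - s)) = ∑ n ∈ Icc 1 X, F (n + s) (u n) := by
  have h1 : ∑ n ∈ Icc 1 X, F (n + s) (u n) = ∑ m ∈ (Icc 1 X).image (fun n => n + s), F m (tr u X (m - s)) := by
    rw [Finset.sum_image fun x _ y _ h => by simpa using h]
    refine Finset.sum_congr rfl fun n hn => ?_
    rw [Finset.mem_Icc] at hn
    have h2 : n + s - s = n := by omega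
    rw [h2]
    unfold tr
    rw [if_pos hn]
  rw [h1]
  symm
  refine Finset.sum_subset ?_ ?_
  · intro m hm
    rw [Finset.mem_image] at hm
    obtain ⟨n, hn, rfl⟩ := hm
    rw [Finset.mem_Icc] at hn ⊢
    omega
  · intro m hm hm2
    have h2 : ¬ (1 ≤ m - s ∧ m - s ≤ X) := by
      intro h3
      apply hm2
      rw [Finset.mem_image]
      refine ⟨m - s, Finset.mem_Icc.2 h3, by omega⟩
    unfold tr
    rw [if_neg h2]
    exact hF m

end Pool.Agent.Helper83.HLC
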