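import Pool.Agent.Helper83.HLC.Grow
import Pool.Agent.Helper83.HLC.RSum

/-!
# HLC-8: the smooth average (A)
-/

set_option autoImplicit false

namespace Pool.Agent.Helper83.HLC

open Finset ComplexConjugate

theorem card_bad_le {k : ℕ} (a : Fin k → ℕ) (S : ℕ) :
    ((Icc 1 S).filter (fun t => ¬ ∀ i j, a i + t ≠ a j)).card ≤ k ^ 2 := by
  classical
  have h1 : (Icc 1 S).filter (fun t => ¬ ∀ i j, a i + t ≠ a j) ⊆
      (Finset.univ : Finset (Fin k × Fin k)).image (fun x => a x.2 - a x.1) := by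
    intro t ht
    rw [Finset.mem_filter] at ht
    obtain ⟨_, h⟩ := ht
    push Not at h
    obtain ⟨i, j, hij⟩ := h
    rw [Finset.mem_image]
    refine ⟨(i, j), Finset.mem_univ _, ?_⟩
    simp only
    omega
  refine (Finset.card_le_card h1).trans (Finset.card_image_le.trans ?_)
  rw [Finset.card_univ, Fintype.card_prod, Fintype.card_fin, sq]

theorem sum_RR {k : ℕ} (a : Fin k → ℕ) (ha : Function.Injective a) :
    ∃ C : ℝ, 0 < C ∧ ∃ X0 : ℕ, ∀ X : ℕ, X0 ≤ X → ∀ S : ℕ, 1 ≤ S → S ≤ X →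
      ∑ t ∈ Icc 1 S, RR a X t ≤ C * X * (S + Real.log X ^ k) := by
  obtain ⟨C2, hC2, X2, h2⟩ := RR_le a ha
  obtain ⟨C3, hC3, X3, h3⟩ := RR_sq a ha
  refine ⟨√C3 + (k ^ 2 : ℝ) * C2 + 1, by positivity, max (max X2 X3) 1, fun X hX S hS hSX => ?_⟩
  have hX2 : X2 ≤ X := (le_max_left _ _).trans ((le_max_left _ _).trans hX)
  have hX3 : X3 ≤ X := (le_max_right _ _).trans ((le_max_left _ _).trans hX)
  have hX1 : 1 ≤ X := (le_max_right _ _).trans hX
  have hX1R : (1 : ℝ) ≤ X := by exact_mod_cast hX1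
  have hL : 0 ≤ Real.log X := Real.log_nonneg hX1R
  have hLk : 0 ≤ Real.log X ^ k := pow_nonneg hL k
  have hSR : (1 : ℝ) ≤ S := by exact_mod_cast hS
  rw [← Finset.sum_filter_add_sum_filter_not (Icc 1 S) (fun t => ∀ i j, a i + t ≠ a j)]
  have hgood : ∑ t ∈ (Icc 1 S).filter (fun t => ∀ i j, a i + t ≠ a j), RR a X t ≤ √C3 * S * X := by
    have h4 := h3 X hX3 S hS hSX
    have h5 : (∑ t ∈ (Icc 1 S).filter (fun t => ∀ i j, a i + t ≠ a j), RR a X t) ^ 2 ≤
        (((Icc 1 S).filter (fun t => ∀ i j, a i + t ≠ a j)).card : ℝ) *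
          ∑ t ∈ (Icc 1 S).filter (fun t => ∀ i j, a i + t ≠ a j), RR a X t ^ 2 := sq_sum_le_card_mul_sum_sq
    have h6 : (((Icc 1 S).filter (fun t => ∀ i j, a i + t ≠ a j)).card : ℝ) ≤ S := by
      have h7 : ((Icc 1 S).filter (fun t => ∀ i j, a i + t ≠ a j)).card ≤ S := by
        refine (Finset.card_filter_le _ _).trans ?_
        rw [Nat.card_Icc]
        omega
      exact_mod_cast h7
    refine abs_le_of_sq_le_sq' ?_ (by positivity) |>.2
    calc _ ≤ _ := h5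
      _ ≤ (S : ℝ) * (C3 * S * X ^ 2) := by
          refine mul_le_mul h6 h4 (Finset.sum_nonneg fun _ _ => sq_nonneg _) (by positivity)
      _ = (√C3 * S * X) ^ 2 := by
          rw [mul_pow, mul_pow, Real.sq_sqrt hC3.le]
          ring
  have hbad : ∑ t ∈ (Icc 1 S).filter (fun t => ¬ ∀ i j, a i + t ≠ a j), RR a X t ≤
      (k ^ 2 : ℝ) * (C2 * X * Real.log X ^ k) := by
    have h4 : ∀ t ∈ (Icc 1 S).filter (fun t => ¬ ∀ i j, a i + t ≠ a j), RR a X t ≤ C2 * X * Real.log X ^ k := by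
      intro t ht
      rw [Finset.mem_filter, Finset.mem_Icc] at ht
      exact h2 X hX2 t (by omega)
    refine (Finset.sum_le_sum h4).trans ?_
    rw [Finset.sum_const, nsmul_eq_mul]
    refine mul_le_mul_of_nonneg_right ?_ (by positivity)
    exact_mod_cast card_bad_le a S
  have hkk : (0 : ℝ) ≤ (k ^ 2 : ℝ) := by positivity
  have hs3 : 0 ≤ √C3 := Real.sqrt_nonneg _
  calc _ ≤ √C3 * S * X + (k ^ 2 : ℝ) * (C2 * X * Real.log X ^ k) := add_le_add hgood hbad
    _ ≤ (√C3 + (k ^ 2 : ℝ) * C2 + 1) * X * (S + Real.log X ^ k) := by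
        have e : (√C3 + (k ^ 2 : ℝ) * C2 + 1) * X * (S + Real.log X ^ k) =
          √C3 * S * X + (k ^ 2 : ℝ) * (C2 * X * Real.log X ^ k) + (√C3 * X * Real.log X ^ k +
            (k ^ 2 : ℝ) * C2 * X * S + X * (S + Real.log X ^ k)) := by ring
        rw [e]
        have : 0 ≤ √C3 * X * Real.log X ^ k + (k ^ 2 : ℝ) * C2 * X * S + X * (S + Real.log X ^ k) := by positivity
        linarith

theorem corr_le {k : ℕ} (a : Fin k → ℕ) (X s s' : ℕ) (hs : s ≤ s') (hs' : s' ≤ X) :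
    ∑ m ∈ Icc 1 (2 * X), tr (GG a) X (m - s) * tr (GG a) X (m - s') ≤ RR a X (s' - s) := by
  have h1 := sum_tr (GG a) (fun m x => tr (GG a) X (m - s) * x) (fun m => mul_zero _) hs'
  rw [h1]
  unfold RR
  refine Finset.sum_le_sum fun n _ => ?_
  have h2 : n + s' - s = n + (s' - s) := by omega
  rw [h2, mul_comm]
  refine mul_le_mul_of_nonneg_left ?_ (GG_nonneg _ _)
  unfold tr
  split_ifs
  · exact le_rfl
  · exact GG_nonneg _ _

theorem corr_le' {k : ℕ} (a : Fin k → ℕ) (X s s' : ℕ) (hs : s ≤ X) (hs' : s' ≤ X) :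
    ∑ m ∈ Icc 1 (2 * X), tr (GG a) X (m - s) * tr (GG a) X (m - s') ≤ RR a X (Nat.dist s s') := by
  rcases le_total s s' with h | h
  · rw [Nat.dist_eq_sub_of_le h]
    exact corr_le a X s s' h hs'
  · rw [Nat.dist_comm, Nat.dist_eq_sub_of_le h]
    refine (le_of_eq ?_).trans (corr_le a X s' s h hs)
    exact Finset.sum_congr rfl fun m _ => mul_comm _ _

theorem tr_nonneg {k : ℕ} (a : Fin k → ℕ) (X n : ℕ) : 0 ≤ tr (GG a) X n := by
  unfold tr
  split_ifs
  · exact GG_nonneg _ _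
  · exact le_rfl

theorem transfer {k : ℕ} (a : Fin k → ℕ) (X S : ℕ) (hS : 1 ≤ S) (hSX : S ≤ X) (B : ℝ) (D : ℕ → ℝ)
    (hD0 : ∀ n, 0 ≤ D n) (hD : ∀ n s : ℕ, D n ≤ D (n + s) + 4 * s) (hB : ∀ n, D n ≤ B) :
    ∑ n ∈ Icc 1 X, GG a n * D n ≤ 4 * S * ∑ n ∈ Icc 1 X, GG a n +
      (1 / (S : ℝ)) * (√(B * ∑ m ∈ Icc 1 (2 * X), D m) *
        √(∑ s ∈ Icc 1 S, ∑ s' ∈ Icc 1 S, RR a X (Nat.dist s s'))) := by
  have hSR : (0 : ℝ) < S := by exact_mod_cast hS
  set w : ℕ → ℝ := fun m => ∑ s ∈ Icc 1 S, tr (GG a) X (m - s) with hw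
  have h1 : ∀ s ∈ Icc 1 S, ∑ n ∈ Icc 1 X, GG a n * D (n + s) = ∑ m ∈ Icc 1 (2 * X), tr (GG a) X (m - s) * D m := by
    intro s hs
    rw [Finset.mem_Icc] at hs
    exact (sum_tr (GG a) (fun m x => x * D m) (fun m => zero_mul _) (hs.2.trans hSX)).symm
  have h2 : (S : ℝ) * ∑ n ∈ Icc 1 X, GG a n * D n ≤
      ∑ m ∈ Icc 1 (2 * X), w m * D m + S * (4 * S * ∑ n ∈ Icc 1 X, GG a n) := by
    have h3 : ∑ m ∈ Icc 1 (2 * X), w m * D m = ∑ s ∈ Icc 1 S, ∑ n ∈ Icc 1 X, GG a n * D (n + s) := by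
      rw [Finset.sum_congr rfl h1, Finset.sum_comm]
      refine Finset.sum_congr rfl fun m _ => ?_
      rw [hw]
      simp only
      rw [Finset.sum_mul]
    have h4 : (S : ℝ) * ∑ n ∈ Icc 1 X, GG a n * D n = ∑ _s ∈ Icc 1 S, ∑ n ∈ Icc 1 X, GG a n * D n := by
      rw [Finset.sum_const, Nat.card_Icc, nsmul_eq_mul]
      push_cast [Nat.add_sub_cancel]
      ring
    have h5 : (S : ℝ) * (4 * S * ∑ n ∈ Icc 1 X, GG a n) = ∑ _s ∈ Icc 1 S, 4 * S * ∑ n ∈ Icc 1 X, GG a n := by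
      rw [Finset.sum_const, Nat.card_Icc, nsmul_eq_mul]
      push_cast [Nat.add_sub_cancel]
      ring
    rw [h3, h4, h5, ← Finset.sum_add_distrib]
    refine Finset.sum_le_sum fun s hs => ?_
    rw [Finset.mem_Icc] at hs
    rw [Finset.mul_sum, ← Finset.sum_add_distrib]
    refine Finset.sum_le_sum fun n _ => ?_
    have h6 := hD n s
    have h7 : (s : ℝ) ≤ S := by exact_mod_cast hs.2
    have h8 := GG_nonneg a n
    nlinarith
  have h3 : (∑ m ∈ Icc 1 (2 * X), w m * D m) ^ 2 ≤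
      (∑ s ∈ Icc 1 S, ∑ s' ∈ Icc 1 S, RR a X (Nat.dist s s')) * (B * ∑ m ∈ Icc 1 (2 * X), D m) := by
    refine (Finset.sum_mul_sq_le_sq_mul_sq _ _ _).trans ?_
    refine mul_le_mul ?_ ?_ (Finset.sum_nonneg fun _ _ => sq_nonneg _)
      (Finset.sum_nonneg fun _ _ => Finset.sum_nonneg fun _ _ => RR_nonneg _ _ _)
    · have h4 : ∑ m ∈ Icc 1 (2 * X), w m ^ 2 =
          ∑ s ∈ Icc 1 S, ∑ s' ∈ Icc 1 S, ∑ m ∈ Icc 1 (2 * X), tr (GG a) X (m - s) * tr (GG a) X (m - s') := by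
        have h5 : ∀ m, w m ^ 2 = ∑ s ∈ Icc 1 S, ∑ s' ∈ Icc 1 S, tr (GG a) X (m - s) * tr (GG a) X (m - s') := by
          intro m
          rw [hw, sq]
          simp only
          rw [Finset.sum_mul_sum]
        simp only [h5]
        rw [Finset.sum_comm]
        refine Finset.sum_congr rfl fun s _ => ?_
        rw [Finset.sum_comm]
      rw [h4]
      refine Finset.sum_le_sum fun s hs => Finset.sum_le_sum fun s' hs' => ?_
      rw [Finset.mem_Icc] at hs hs'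
      exact corr_le' a X s s' (hs.2.trans hSX) (hs'.2.trans hSX)
    · rw [Finset.mul_sum]
      refine Finset.sum_le_sum fun m _ => ?_
      rw [sq]
      exact mul_le_mul_of_nonneg_right (hB m) (hD0 m)
  have hP : 0 ≤ ∑ s ∈ Icc 1 S, ∑ s' ∈ Icc 1 S, RR a X (Nat.dist s s') :=
    Finset.sum_nonneg fun _ _ => Finset.sum_nonneg fun _ _ => RR_nonneg _ _ _
  have hB0 : 0 ≤ B := (hD0 0).trans (hB 0)
  have hQ : 0 ≤ B * ∑ m ∈ Icc 1 (2 * X), D m := mul_nonneg hB0 (Finset.sum_nonneg fun _ _ => hD0 _)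
  have h4 : ∑ m ∈ Icc 1 (2 * X), w m * D m ≤ √(B * ∑ m ∈ Icc 1 (2 * X), D m) *
        √(∑ s ∈ Icc 1 S, ∑ s' ∈ Icc 1 S, RR a X (Nat.dist s s')) := by
    refine (abs_le_of_sq_le_sq' ?_ (by positivity)).2
    rw [mul_pow, Real.sq_sqrt hQ, Real.sq_sqrt hP]
    linarith
  have h5 : ∑ n ∈ Icc 1 X, GG a n * D n = (1 / (S : ℝ)) * ((S : ℝ) * ∑ n ∈ Icc 1 X, GG a n * D n) := by
    field_simp
  rw [h5]
  calc (1 / (S : ℝ)) * ((S : ℝ) * ∑ n ∈ Icc 1 X, GG a n * D n) ≤ (1 / (S : ℝ)) *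
        (√(B * ∑ m ∈ Icc 1 (2 * X), D m) * √(∑ s ∈ Icc 1 S, ∑ s' ∈ Icc 1 S, RR a X (Nat.dist s s')) +
          S * (4 * S * ∑ n ∈ Icc 1 X, GG a n)) := by
        refine mul_le_mul_of_nonneg_left ?_ (by positivity)
        linarith
    _ = _ := by field_simp; ring

theorem sum_dist_le {k : ℕ} (a : Fin k → ℕ) (X S : ℕ) :
    ∑ s ∈ Icc 1 S, ∑ s' ∈ Icc 1 S, RR a X (Nat.dist s s') ≤ S * (RR a X 0 + 2 * ∑ t ∈ Icc 1 S, RR a X t) := by
  have h1 : ∀ s ∈ Icc 1 S, ∑ s' ∈ Icc 1 S, RR a X (Nat.dist s s') ≤ RR a X 0 + 2 * ∑ t ∈ Icc 1 S, RR a X t := by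
    intro s hs
    rw [Finset.mem_Icc] at hs
    have hsplit : Icc 1 S = (Icc 1 s) ∪ (Icc (s + 1) S) := by
      ext x
      simp only [Finset.mem_union, Finset.mem_Icc]
      omega
    have hdisj : Disjoint (Icc 1 s) (Icc (s + 1) S) := by
      rw [Finset.disjoint_left]
      intro x hx hx'
      rw [Finset.mem_Icc] at hx hx'
      omega
    rw [hsplit, Finset.sum_union hdisj, ← hsplit]
    have h2 : ∑ s' ∈ Icc 1 s, RR a X (Nat.dist s s') ≤ RR a X 0 + ∑ t ∈ Icc 1 S, RR a X t := by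
      have h3 : ∑ s' ∈ Icc 1 s, RR a X (Nat.dist s s') = ∑ t ∈ (Icc 1 s).image (fun s' => s - s'), RR a X t := by
        rw [Finset.sum_image]
        · refine Finset.sum_congr rfl fun s' hs' => ?_
          rw [Finset.mem_Icc] at hs'
          rw [Nat.dist_comm, Nat.dist_eq_sub_of_le hs'.2]
        · intro x hx y hy hxy
          rw [Finset.mem_coe, Finset.mem_Icc] at hx hy
          simp only at hxy
          omega
      rw [h3, ← Finset.sum_insert (f := RR a X) (s := Icc 1 S) (a := 0) (by simp)]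
      refine Finset.sum_le_sum_of_subset_of_nonneg ?_ fun t _ _ => RR_nonneg _ _ _
      intro t ht
      rw [Finset.mem_image] at ht
      obtain ⟨s', hs', rfl⟩ := ht
      rw [Finset.mem_Icc] at hs'
      rw [Finset.mem_insert, Finset.mem_Icc]
      omega
    have h4 : ∑ s' ∈ Icc (s + 1) S, RR a X (Nat.dist s s') ≤ ∑ t ∈ Icc 1 S, RR a X t := by
      have h3 : ∑ s' ∈ Icc (s + 1) S, RR a X (Nat.dist s s') =
          ∑ t ∈ (Icc (s + 1) S).image (fun s' => s' - s), RR a X t := by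
        rw [Finset.sum_image]
        · refine Finset.sum_congr rfl fun s' hs' => ?_
          rw [Finset.mem_Icc] at hs'
          rw [Nat.dist_eq_sub_of_le (by omega)]
        · intro x hx y hy hxy
          rw [Finset.mem_coe, Finset.mem_Icc] at hx hy
          simp only at hxy
          omega
      rw [h3]
      refine Finset.sum_le_sum_of_subset_of_nonneg ?_ fun t _ _ => RR_nonneg _ _ _
      intro t ht
      rw [Finset.mem_image] at ht
      obtain ⟨s', hs', rfl⟩ := ht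
      rw [Finset.mem_Icc] at hs'
      rw [Finset.mem_Icc]
      omega
    linarith
  refine (Finset.sum_le_sum h1).trans ?_
  rw [Finset.sum_const, Nat.card_Icc, nsmul_eq_mul]
  push_cast [Nat.add_sub_cancel]
  exact le_rfl

/-- The smooth average: `H ≥ c (log X) ^ k` for any `c > 0`. -/
theorem smooth (hE : MRP.EXPx) (hL : MRP.LAWx) {k : ℕ} (a : Fin k → ℕ) (ha : Function.Injective a)
    (ε c : ℝ) (hε : 0 < ε) (hc : 0 < c) :
    ∃ H1 X1 : ℕ, ∀ X : ℕ, X1 ≤ X → ∀ H : ℕ, H1 ≤ H → c * Real.log X ^ k ≤ H → H ≤ X → ∀ y : ℕ, y ≤ X →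
      ∀ b : ℕ → ℝ, (∀ m, |b m| ≤ 1) → ∀ α : ℝ,
      ∑ n ∈ Icc 1 X, GG a n * ‖TT (fy X b y) H α n‖ ≤ ε * H * X := by
  obtain ⟨C1, hC1, X1, h1⟩ := sum_GG a ha
  obtain ⟨C2, hC2, X2, h2⟩ := RR_le a ha
  obtain ⟨C3, hC3, X3, h3⟩ := sum_RR a ha
  set C4 : ℝ := C2 + 2 * C3 with hC4
  have hC4' : 0 < C4 := by positivity
  set η : ℝ := min 1 (ε / (8 * C1)) with hη
  have hη0 : 0 < η := lt_min one_pos (by positivity)
  have hη1 : η ≤ 1 := min_le_left _ _
  have hηε : 4 * η * C1 ≤ ε / 2 := by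
    have e : η ≤ ε / (8 * C1) := min_le_right _ _
    rw [le_div_iff₀ (by positivity)] at e
    linarith
  -- L^k ≤ H / c ≤ (2 / (η c)) S
  set M : ℝ := 2 * C4 * (1 + 2 / (η * c)) with hM
  have hM0 : 0 < M := by positivity
  set δ : ℝ := (ε / 2) ^ 2 / M with hδ
  have hδ0 : 0 < δ := by positivity
  obtain ⟨H4, X4, h4⟩ := exp_growing hE hL δ hδ0
  obtain ⟨H5, hH5⟩ := exists_nat_ge (2 / η)
  refine ⟨max H4 H5, max (max X1 X2) (max (max X3 X4) 1), fun X hX H hH hHc hHX y hy b hb α => ?_⟩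
  have hX1 : X1 ≤ X := (le_max_left _ _).trans ((le_max_left _ _).trans hX)
  have hX2 : X2 ≤ X := (le_max_right _ _).trans ((le_max_left _ _).trans hX)
  have hX3 : X3 ≤ X := (le_max_left _ _).trans ((le_max_left _ _).trans ((le_max_right _ _).trans hX))
  have hX4 : X4 ≤ X := (le_max_right _ _).trans ((le_max_left _ _).trans ((le_max_right _ _).trans hX))
  have hX0 : 1 ≤ X := (le_max_right _ _).trans ((le_max_right _ _).trans hX)
  have hXR : (1 : ℝ) ≤ X := by exact_mod_cast hX0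
  have hLg : 0 ≤ Real.log X := Real.log_nonneg hXR
  have hLk : 0 ≤ Real.log X ^ k := pow_nonneg hLg k
  have hH4 : H4 ≤ H := (le_max_left _ _).trans hH
  have hH5' : 2 / η ≤ H := hH5.trans (by exact_mod_cast (le_max_right _ _).trans hH)
  have hηH : 2 ≤ η * H := by
    rw [div_le_iff₀ hη0] at hH5'
    linarith
  have hHR : (0 : ℝ) < H := by
    by_contra hcon
    push Not at hcon
    nlinarith
  set S : ℕ := ⌊η * H⌋₊ with hS
  have hSle : (S : ℝ) ≤ η * H := Nat.floor_le (by positivity)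
  have hSge : η * H / 2 ≤ S := by
    have e := Nat.lt_floor_add_one (η * (H : ℝ))
    rw [← hS] at e
    linarith
  have hS1 : 1 ≤ S := by
    have e : (1 : ℝ) ≤ S := by linarith
    exact_mod_cast e
  have hSX : S ≤ X := by
    have e : (S : ℝ) ≤ X := by
      have e1 : η * (H : ℝ) ≤ H := by nlinarith
      have e2 : (H : ℝ) ≤ X := by exact_mod_cast hHX
      linarith
    exact_mod_cast e
  have hSR : (0 : ℝ) < S := by exact_mod_cast hS1
  have t1 := transfer a X S hS1 hSX (2 * H) (fun n => ‖TT (fy X b y) H α n‖) (fun n => norm_nonneg _)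
    (fun n s => by
      refine (norm_TT_shift (norm_fy_le X hb y) H α n s).trans (le_of_eq ?_)
      ring) (fun n => norm_TT_le (norm_fy_le X hb y) H α n)
  refine t1.trans ?_
  have t2 : 4 * (S : ℝ) * ∑ n ∈ Icc 1 X, GG a n ≤ ε / 2 * H * X := by
    calc 4 * (S : ℝ) * ∑ n ∈ Icc 1 X, GG a n ≤ 4 * (η * H) * (C1 * X) := by
          refine mul_le_mul (by linarith) (h1 X hX1) (Finset.sum_nonneg fun _ _ => GG_nonneg _ _) (by positivity)
      _ = (4 * η * C1) * (H * X) := by ring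
      _ ≤ ε / 2 * (H * X) := by
          refine mul_le_mul_of_nonneg_right hηε (by positivity)
      _ = _ := by ring
  have t3 : ∑ s ∈ Icc 1 S, ∑ s' ∈ Icc 1 S, RR a X (Nat.dist s s') ≤ S * (C4 * X * (S + Real.log X ^ k)) := by
    refine (sum_dist_le a X S).trans ?_
    refine mul_le_mul_of_nonneg_left ?_ hSR.le
    have e1 := h2 X hX2 0 (Nat.zero_le _)
    have e2 := h3 X hX3 S hS1 hSX
    have e3 : C2 * X * Real.log X ^ k ≤ C2 * X * (S + Real.log X ^ k) := by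
      refine mul_le_mul_of_nonneg_left (by linarith) (by positivity)
    rw [hC4]
    nlinarith
  have t4 : 2 * (H : ℝ) * ∑ m ∈ Icc 1 (2 * X), ‖TT (fy X b y) H α m‖ ≤ 2 * H * (δ * H * X) :=
    mul_le_mul_of_nonneg_left (h4 X hX4 H hH4 hHX y hy b hb α) (by positivity)
  have t5 : Real.log X ^ k ≤ 2 / (η * c) * S := by
    have e1 : Real.log X ^ k ≤ H / c := by
      rw [le_div_iff₀ hc]
      linarith
    have e2 : (H : ℝ) / c ≤ 2 / (η * c) * S := by
      rw [div_mul_eq_mul_div, div_le_div_iff₀ hc (by positivity)]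
      have e3 : (H : ℝ) * (η * c) = (η * H) * c := by ring
      have e4 : η * (H : ℝ) ≤ 2 * S := by linarith
      rw [e3]
      exact mul_le_mul_of_nonneg_right e4 hc.le
    exact e1.trans e2
  have t6 : √(2 * (H : ℝ) * ∑ m ∈ Icc 1 (2 * X), ‖TT (fy X b y) H α m‖) *
      √(∑ s ∈ Icc 1 S, ∑ s' ∈ Icc 1 S, RR a X (Nat.dist s s')) ≤ S * (ε / 2 * H * X) := by
    rw [← Real.sqrt_mul (by positivity)]
    rw [Real.sqrt_le_left (by positivity)]
    calc (2 * (H : ℝ) * ∑ m ∈ Icc 1 (2 * X), ‖TT (fy X b y) H α m‖) *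
          ∑ s ∈ Icc 1 S, ∑ s' ∈ Icc 1 S, RR a X (Nat.dist s s') ≤
          (2 * H * (δ * H * X)) * (S * (C4 * X * (S + Real.log X ^ k))) := by
          refine mul_le_mul t4 t3 (Finset.sum_nonneg fun _ _ => Finset.sum_nonneg fun _ _ => RR_nonneg _ _ _)
            (by positivity)
      _ ≤ (2 * H * (δ * H * X)) * (S * (C4 * X * ((1 + 2 / (η * c)) * S))) := by
          refine mul_le_mul_of_nonneg_left ?_ (by positivity)
          refine mul_le_mul_of_nonneg_left ?_ hSR.le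
          refine mul_le_mul_of_nonneg_left ?_ (by positivity)
          nlinarith
      _ = (δ * M) * (S * (H * X)) ^ 2 := by rw [hM]; ring
      _ = (S * (ε / 2 * H * X)) ^ 2 := by
          have e : δ * M = (ε / 2) ^ 2 := by rw [hδ]; field_simp
          rw [e]
          ring
  calc _ ≤ ε / 2 * H * X + (1 / (S : ℝ)) * (S * (ε / 2 * H * X)) := by
        refine add_le_add t2 (mul_le_mul_of_nonneg_left t6 (by positivity))
    _ = ε * H * X := by field_simp; ring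

end Pool.Agent.Helper83.HLC
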