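import Pool.Agent.Helper83.HLC.Count

/-!
# HLC-2: the tuple bound with von Mangoldt weights

`Λ (n + i) ≤ log (n + i) ≤ log (2 X) ≤ 2 log X`. On the `n` with all `n + i` prime use `count_tuples`:
`(2 log X) ^ m * C X / (log X) ^ m * ∏ W ^ m`. The other `n` with nonzero product have some `n + i ≤ 2 X` a prime power which is not
prime; the number of such integers `≤ Y = 2 X` is at most `√Y * (Nat.log 2 Y + 1)` (write it `p ^ j`, `p ≤ √Y`, `2 ≤ j ≤ Nat.log 2 Y`;
the map to `(p, j)` is injective), so these `n` are at most `m √(2X) (Nat.log 2 (2X) + 1)` and contribute at most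
`m √(2X) (Nat.log 2 (2X) + 1) (2 log X) ^ m ≤ C' X ≤ C' X ∏ W ^ m` (`one_le_W`). (Alternatively: Mathlib has bounds for
`Chebyshev.psi - Chebyshev.theta`, the sum of `Λ` over the prime powers which are not prime, each term is `≥ log 2`.)
-/

set_option autoImplicit false

namespace Pool.Agent.Helper83.HLC

open Finset

/-- the sum of `Λ` over the prime powers up to `Y` which are not prime -/
private lemma sum_nonprime_le (Y : ℕ) (hY : 1 ≤ Y) :
    ∑ k ∈ (Ioc 0 Y).filter (fun k => ¬ k.Prime), ArithmeticFunction.vonMangoldt k ≤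
      2 * √(Y : ℝ) * Real.log Y := by
  have h1 := Chebyshev.abs_psi_sub_theta_le_sqrt_mul_log (x := (Y : ℝ)) (by exact_mod_cast hY)
  have h2 : Chebyshev.psi (Y : ℝ) - Chebyshev.theta (Y : ℝ) =
      ∑ k ∈ (Ioc 0 Y).filter (fun k => ¬ k.Prime), ArithmeticFunction.vonMangoldt k := by
    unfold Chebyshev.psi Chebyshev.theta
    rw [Nat.floor_natCast, ← Finset.sum_filter_add_sum_filter_not (Ioc 0 Y) (fun k => k.Prime)]
    have h3 : ∑ k ∈ (Ioc 0 Y).filter (fun k => k.Prime), ArithmeticFunction.vonMangoldt k =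
        ∑ k ∈ (Ioc 0 Y).filter (fun k => k.Prime), Real.log k := by
      refine Finset.sum_congr rfl fun k hk => ?_
      exact ArithmeticFunction.vonMangoldt_apply_prime (Finset.mem_filter.1 hk).2
    rw [h3]
    ring
  rw [← h2]
  exact (le_abs_self _).trans h1

private lemma shift_nonprime_le (X i : ℕ) (hi : i ≤ X) (hX : 2 ≤ X) :
    ∑ n ∈ (Icc 1 X).filter (fun n => ¬ (n + i).Prime), ArithmeticFunction.vonMangoldt (n + i) ≤
      2 * √((2 * X : ℕ) : ℝ) * Real.log ((2 * X : ℕ) : ℝ) := by
  refine le_trans ?_ (sum_nonprime_le (2 * X) (by omega))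
  have h1 : ∑ n ∈ (Icc 1 X).filter (fun n => ¬ (n + i).Prime),
      ArithmeticFunction.vonMangoldt (n + i) =
      ∑ k ∈ ((Icc 1 X).filter (fun n => ¬ (n + i).Prime)).image (· + i),
        ArithmeticFunction.vonMangoldt k := by
    rw [Finset.sum_image]
    intro a _ b _ hab
    exact Nat.add_right_cancel hab
  rw [h1]
  refine Finset.sum_le_sum_of_subset_of_nonneg ?_
    (fun _ _ _ => ArithmeticFunction.vonMangoldt_nonneg)
  intro k hk
  rw [Finset.mem_image] at hk
  obtain ⟨n, hn, rfl⟩ := hk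
  rw [Finset.mem_filter, Finset.mem_Icc] at hn
  rw [Finset.mem_filter, Finset.mem_Ioc]
  exact ⟨⟨by omega, by omega⟩, hn.2⟩

private lemma vm_le (X n i : ℕ) (hX : 2 ≤ X) (hn : n ∈ Icc 1 X) (hi : i ≤ X) :
    ArithmeticFunction.vonMangoldt (n + i) ≤ 2 * Real.log X := by
  rw [Finset.mem_Icc] at hn
  refine ArithmeticFunction.vonMangoldt_le_log.trans ?_
  have hX0 : (2 : ℝ) ≤ X := by exact_mod_cast hX
  have h1 : ((n + i : ℕ) : ℝ) ≤ X * X := by
    have : n + i ≤ X * X := by nlinarith
    exact_mod_cast this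
  have h0 : (0 : ℝ) < ((n + i : ℕ) : ℝ) := by
    have : 0 < n + i := by omega
    exact_mod_cast this
  calc Real.log ((n + i : ℕ) : ℝ) ≤ Real.log (X * X) := Real.log_le_log h0 h1
    _ = 2 * Real.log X := by
      rw [Real.log_mul (by linarith) (by linarith)]
      ring

theorem sum_tuples (m : ℕ) : ∃ C : ℝ, 0 < C ∧ ∀ X : ℕ, 2 ≤ X → ∀ s : Finset ℕ, s.card = m → (∀ i ∈ s, i ≤ X) →
    ∑ n ∈ Icc 1 X, ∏ i ∈ s, ArithmeticFunction.vonMangoldt (n + i) ≤
      C * X * ∏ x ∈ s.offDiag, W (Nat.dist x.1 x.2) ^ m := by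
  classical
  obtain ⟨C₁, hC₁, hcount⟩ := count_tuples m
  obtain ⟨K, hK⟩ : ∃ K : ℝ, K = 2 * ((2 * (2 * ((m : ℝ) + 1))) ^ (m + 1)) := ⟨_, rfl⟩
  have hK0 : 0 < K := by rw [hK]; positivity
  refine ⟨2 ^ m * C₁ + m * (2 * K), by positivity, ?_⟩
  intro X hX s hs hsX
  have hX2 : (2 : ℝ) ≤ X := by exact_mod_cast hX
  have hX0 : (0 : ℝ) < X := by linarith
  have hX1 : (1 : ℝ) ≤ X := by linarith
  have hlogX : 1 / 2 < Real.log X := by
    have h1 := Real.log_two_gt_d9
    have h2 : Real.log 2 ≤ Real.log X := Real.log_le_log (by norm_num) hX2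
    linarith
  have hL1 : (1 : ℝ) ≤ 2 * Real.log X := by linarith
  have hL0 : (0 : ℝ) < Real.log X := by linarith
  obtain ⟨PW, hPW⟩ : ∃ PW : ℝ, PW = ∏ x ∈ s.offDiag, W (Nat.dist x.1 x.2) ^ m := ⟨_, rfl⟩
  have hPW1 : 1 ≤ PW := by
    rw [hPW]
    calc (1 : ℝ) = ∏ _x ∈ s.offDiag, (1 : ℝ) := by simp
      _ ≤ _ := Finset.prod_le_prod (fun _ _ => zero_le_one) fun x _ =>
        one_le_pow₀ (one_le_W _)
  rw [← hPW]
  have hcnt := hcount X hX s hs
  rw [← hPW] at hcnt
  -- split
  rw [← Finset.sum_filter_add_sum_filter_not (Icc 1 X) (fun n => ∀ i ∈ s, (n + i).Prime)]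
  have hgood : ∑ n ∈ (Icc 1 X).filter (fun n => ∀ i ∈ s, (n + i).Prime),
      ∏ i ∈ s, ArithmeticFunction.vonMangoldt (n + i) ≤ 2 ^ m * C₁ * X * PW := by
    have h1 : ∀ n ∈ (Icc 1 X).filter (fun n => ∀ i ∈ s, (n + i).Prime),
        ∏ i ∈ s, ArithmeticFunction.vonMangoldt (n + i) ≤ (2 * Real.log X) ^ m := by
      intro n hn
      rw [Finset.mem_filter] at hn
      calc ∏ i ∈ s, ArithmeticFunction.vonMangoldt (n + i) ≤ ∏ _i ∈ s, (2 * Real.log X) :=
            Finset.prod_le_prod (fun _ _ => ArithmeticFunction.vonMangoldt_nonneg)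
              fun i hi => vm_le X n i hX hn.1 (hsX i hi)
        _ = (2 * Real.log X) ^ m := by rw [Finset.prod_const, hs]
    calc ∑ n ∈ (Icc 1 X).filter (fun n => ∀ i ∈ s, (n + i).Prime),
          ∏ i ∈ s, ArithmeticFunction.vonMangoldt (n + i)
        ≤ ∑ _n ∈ (Icc 1 X).filter (fun n => ∀ i ∈ s, (n + i).Prime), (2 * Real.log X) ^ m :=
          Finset.sum_le_sum h1
      _ = (((Icc 1 X).filter (fun n => ∀ i ∈ s, (n + i).Prime)).card : ℝ) *
          (2 * Real.log X) ^ m := by rw [Finset.sum_const, nsmul_eq_mul]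
      _ ≤ (C₁ * X / (Real.log X) ^ m * PW) * (2 * Real.log X) ^ m := by gcongr
      _ = 2 ^ m * C₁ * X * PW := by
        rw [mul_pow]
        have : (Real.log X) ^ m ≠ 0 := pow_ne_zero _ hL0.ne'
        field_simp
  have hbad : ∑ n ∈ (Icc 1 X).filter (fun n => ¬ ∀ i ∈ s, (n + i).Prime),
      ∏ i ∈ s, ArithmeticFunction.vonMangoldt (n + i) ≤ m * (2 * K) * X := by
    have h1 : ∀ n ∈ (Icc 1 X).filter (fun n => ¬ ∀ i ∈ s, (n + i).Prime),
        ∏ i ∈ s, ArithmeticFunction.vonMangoldt (n + i) ≤
        ∑ i ∈ s, (if (n + i).Prime then 0 else ArithmeticFunction.vonMangoldt (n + i)) *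
          (2 * Real.log X) ^ m := by
      intro n hn
      rw [Finset.mem_filter] at hn
      obtain ⟨hnX, hnp⟩ := hn
      push Not at hnp
      obtain ⟨j, hj, hjp⟩ := hnp
      have h2 : ∏ i ∈ s, ArithmeticFunction.vonMangoldt (n + i) ≤
          ArithmeticFunction.vonMangoldt (n + j) * (2 * Real.log X) ^ m := by
        rw [← Finset.mul_prod_erase s _ hj]
        refine mul_le_mul_of_nonneg_left ?_ ArithmeticFunction.vonMangoldt_nonneg
        calc ∏ i ∈ s.erase j, ArithmeticFunction.vonMangoldt (n + i)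
            ≤ ∏ _i ∈ s.erase j, (2 * Real.log X) :=
              Finset.prod_le_prod (fun _ _ => ArithmeticFunction.vonMangoldt_nonneg)
                fun i hi => vm_le X n i hX hnX (hsX i (Finset.mem_of_mem_erase hi))
          _ = (2 * Real.log X) ^ (s.erase j).card := by rw [Finset.prod_const]
          _ ≤ (2 * Real.log X) ^ m := by
            refine pow_le_pow_right₀ hL1 ?_
            rw [← hs]
            exact Finset.card_le_card (Finset.erase_subset _ _)
      refine h2.trans ?_
      have h3 := Finset.single_le_sum (f := fun i =>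
        (if (n + i).Prime then 0 else ArithmeticFunction.vonMangoldt (n + i)) *
          (2 * Real.log X) ^ m) (s := s) (fun i _ => by
          refine mul_nonneg ?_ (by positivity)
          split_ifs
          · exact le_rfl
          · exact ArithmeticFunction.vonMangoldt_nonneg) hj
      refine le_trans (le_of_eq ?_) h3
      simp only [if_neg hjp]
    calc ∑ n ∈ (Icc 1 X).filter (fun n => ¬ ∀ i ∈ s, (n + i).Prime),
          ∏ i ∈ s, ArithmeticFunction.vonMangoldt (n + i)
        ≤ ∑ n ∈ (Icc 1 X).filter (fun n => ¬ ∀ i ∈ s, (n + i).Prime),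
          ∑ i ∈ s, (if (n + i).Prime then 0 else ArithmeticFunction.vonMangoldt (n + i)) *
          (2 * Real.log X) ^ m := Finset.sum_le_sum h1
      _ ≤ ∑ n ∈ Icc 1 X,
          ∑ i ∈ s, (if (n + i).Prime then 0 else ArithmeticFunction.vonMangoldt (n + i)) *
          (2 * Real.log X) ^ m := by
          refine Finset.sum_le_sum_of_subset_of_nonneg (Finset.filter_subset _ _) ?_
          intro n _ _
          refine Finset.sum_nonneg fun i _ => mul_nonneg ?_ (by positivity)
          split_ifs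
          · exact le_rfl
          · exact ArithmeticFunction.vonMangoldt_nonneg
      _ = ∑ i ∈ s, (∑ n ∈ (Icc 1 X).filter (fun n => ¬ (n + i).Prime),
            ArithmeticFunction.vonMangoldt (n + i)) * (2 * Real.log X) ^ m := by
          rw [Finset.sum_comm]
          refine Finset.sum_congr rfl fun i _ => ?_
          rw [← Finset.sum_mul, Finset.sum_filter]
          congr 1
          refine Finset.sum_congr rfl fun n _ => ?_
          by_cases hp : (n + i).Prime
          · simp [hp]
          · simp [hp]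
      _ ≤ ∑ _i ∈ s, (K * X * 2) := by
          refine Finset.sum_le_sum fun i hi => ?_
          have h4 := shift_nonprime_le X i (hsX i hi) hX
          have h5 : Real.log ((2 * X : ℕ) : ℝ) ≤ 2 * Real.log X := by
            push_cast
            rw [Real.log_mul (by norm_num) (by linarith)]
            have : Real.log 2 ≤ Real.log X := Real.log_le_log (by norm_num) hX2
            linarith
          have h6 : √((2 * X : ℕ) : ℝ) ≤ 2 * √(X : ℝ) := by
            rw [Real.sqrt_le_left (by positivity), mul_pow, Real.sq_sqrt hX0.le]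
            push_cast
            linarith
          have h7 : (2 * Real.log X) ^ (m + 1) ≤ (2 * (2 * ((m : ℝ) + 1))) ^ (m + 1) * √(X : ℝ) := by
            have hm1 : (0 : ℝ) < (m : ℝ) + 1 := by positivity
            have h8 := Real.log_le_rpow_div hX0.le (ε := 1 / (2 * ((m : ℝ) + 1))) (by positivity)
            have h9 : Real.log X ≤ 2 * ((m : ℝ) + 1) * (X : ℝ) ^ (1 / (2 * ((m : ℝ) + 1))) := by
              refine h8.trans (le_of_eq ?_)
              field_simp
            calc (2 * Real.log X) ^ (m + 1)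
                ≤ (2 * (2 * ((m : ℝ) + 1) * (X : ℝ) ^ (1 / (2 * ((m : ℝ) + 1))))) ^ (m + 1) := by
                  gcongr
              _ = (2 * (2 * ((m : ℝ) + 1))) ^ (m + 1) *
                  ((X : ℝ) ^ (1 / (2 * ((m : ℝ) + 1)))) ^ (m + 1) := by
                  rw [← mul_pow]
                  ring_nf
              _ = (2 * (2 * ((m : ℝ) + 1))) ^ (m + 1) * √(X : ℝ) := by
                  congr 1
                  rw [← Real.rpow_natCast, ← Real.rpow_mul hX0.le, Real.sqrt_eq_rpow]
                  congr 1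
                  push_cast
                  field_simp
          have h10 : 0 ≤ ∑ n ∈ (Icc 1 X).filter (fun n => ¬ (n + i).Prime),
              ArithmeticFunction.vonMangoldt (n + i) :=
            Finset.sum_nonneg fun _ _ => ArithmeticFunction.vonMangoldt_nonneg
          calc (∑ n ∈ (Icc 1 X).filter (fun n => ¬ (n + i).Prime),
                ArithmeticFunction.vonMangoldt (n + i)) * (2 * Real.log X) ^ m
              ≤ (2 * (2 * √(X : ℝ)) * (2 * Real.log X)) * (2 * Real.log X) ^ m := by
                refine mul_le_mul_of_nonneg_right (h4.trans ?_) (by positivity)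
                have : 0 ≤ Real.log ((2 * X : ℕ) : ℝ) := Real.log_natCast_nonneg _
                gcongr
            _ = 4 * √(X : ℝ) * (2 * Real.log X) ^ (m + 1) := by ring
            _ ≤ 4 * √(X : ℝ) * ((2 * (2 * ((m : ℝ) + 1))) ^ (m + 1) * √(X : ℝ)) := by gcongr
            _ = 4 * (2 * (2 * ((m : ℝ) + 1))) ^ (m + 1) * (√(X : ℝ) * √(X : ℝ)) := by ring
            _ = K * X * 2 := by
                rw [Real.mul_self_sqrt hX0.le, hK]
                ring
      _ = m * (2 * K) * X := by
          rw [Finset.sum_const, hs, nsmul_eq_mul]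
          ring
  have hfin : (m : ℝ) * (2 * K) * X ≤ m * (2 * K) * X * PW := by
    have : 0 ≤ (m : ℝ) * (2 * K) * X := by positivity
    exact le_mul_of_one_le_right this hPW1
  calc _ ≤ 2 ^ m * C₁ * X * PW + m * (2 * K) * X * PW := add_le_add hgood (hbad.trans hfin)
    _ = _ := by ring

end Pool.Agent.Helper83.HLC
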